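import Pool.Agent.Lib.MP_b07157_agSC.OrdA
import Pool.Agent.Lib.MP_b07157_agM.IFT

/-!
# Iterated derivatives
-/

noncomputable section

namespace MPb07157

open MvPolynomial

namespace OR

variable {n k m : ℕ}

/-- Iterated derivatives. -/
def dl (l : List (Fin n)) (F : MvPolynomial (Fin n) ℂ) : MvPolynomial (Fin n) ℂ :=
  l.foldr (fun i G => pderiv i G) F

theorem dl_cons (i : Fin n) (l : List (Fin n)) (F : MvPolynomial (Fin n) ℂ) :
    dl (i :: l) F = pderiv i (dl l F) := rfl

/-- The derivative in the direction of the `i`-th column. -/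
def DD (A : Fin k → Fin n → ℂ) (i : Fin n) (δ : MvPolynomial (Fin k) ℂ) : MvPolynomial (Fin k) ℂ :=
  ∑ j, C (A j i) * pderiv j δ

/-- Iterated derivatives in the direction of the columns. -/
def DL (A : Fin k → Fin n → ℂ) (l : List (Fin n)) (δ : MvPolynomial (Fin k) ℂ) :
    MvPolynomial (Fin k) ℂ := l.foldr (fun i G => DD A i G) δ

theorem DL_cons (A : Fin k → Fin n → ℂ) (i : Fin n) (l : List (Fin n))
    (δ : MvPolynomial (Fin k) ℂ) : DL A (i :: l) δ = DD A i (DL A l δ) := rfl

theorem DL_append (A : Fin k → Fin n → ℂ) (i : Fin n) (l : List (Fin n))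
    (δ : MvPolynomial (Fin k) ℂ) : DL A (l ++ [i]) δ = DL A l (DD A i δ) := by
  unfold DL
  rw [List.foldr_append]
  rfl

theorem isHomogeneous_DD {A : Fin k → Fin n → ℂ} {δ : MvPolynomial (Fin k) ℂ}
    (h : δ.IsHomogeneous m) (i : Fin n) : (DD A i δ).IsHomogeneous (m - 1) :=
  IsHomogeneous.sum _ _ _ fun _ _ => h.pderiv.C_mul _

theorem isHomogeneous_DL {A : Fin k → Fin n → ℂ} {δ : MvPolynomial (Fin k) ℂ}
    (h : δ.IsHomogeneous m) (l : List (Fin n)) : (DL A l δ).IsHomogeneous (m - l.length) := by
  induction l with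
  | nil => exact h
  | cons i l ih =>
    have h1 := isHomogeneous_DD (A := A) ih i
    rw [DL_cons]
    rw [List.length_cons, ← Nat.sub_sub]
    exact h1

/-- The linear parts. -/
abbrev lin (y : Fin k → MvPowerSeries (Fin n) ℂ) : Fin k → Fin n → ℂ := fun j i =>
  MvPowerSeries.constantCoeff (MvPowerSeries.pderiv ℂ i (y j))

theorem exists_dl {F : MvPolynomial (Fin n) ℂ} {y : Fin k → MvPowerSeries (Fin n) ℂ}
    (hy : ∀ j, MvPowerSeries.constantCoeff (y j) = 0)
    {g : MvPolynomial (Fin k) (MvPowerSeries (Fin n) ℂ)}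
    (hF : (F : MvPowerSeries (Fin n) ℂ) = eval y g) (l : List (Fin n)) :
    ∀ q : ℕ, g.IsHomogeneous (q + l.length) →
      ∃ g' : MvPolynomial (Fin k) (MvPowerSeries (Fin n) ℂ), g'.IsHomogeneous q ∧
        ((dl l F : MvPolynomial (Fin n) ℂ) : MvPowerSeries (Fin n) ℂ) = eval y g' ∧
        cc g' = DL (lin y) l (cc g) := by
  induction l with
  | nil => exact fun q hg => ⟨g, hg, hF, rfl⟩
  | cons i l ih =>
    intro q hg
    obtain ⟨g₁, h1, h2, h3⟩ := ih (q + 1) (by
      rw [List.length_cons] at hg
      have : q + 1 + l.length = q + (l.length + 1) := by ring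
      rw [this]
      exact hg)
    obtain ⟨g₂, h4, h5, h6⟩ := step hy h1 (MvPowerSeries.pderiv ℂ i)
    refine ⟨g₂, h4, ?_, ?_⟩
    · rw [dl_cons, ← MvPowerSeries.pderiv_coe, h2, h5]
    · rw [h6, h3, DL_cons]
      rfl

/-- If all derivatives of order `r` of a form of degree at least `r` in the direction of the columns
vanish at a combination of the columns, then the form vanishes there. -/
theorem eval_eq_zero_of_DL {A : Fin k → Fin n → ℂ} {Y : Fin k → ℂ} {x : Fin n → ℂ}
    (hx : ∀ j, Y j = ∑ i, x i * A j i) (r : ℕ) : ∀ q : ℕ, r ≤ q → ∀ δ : MvPolynomial (Fin k) ℂ,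
      δ.IsHomogeneous q → (∀ l : List (Fin n), l.length = r → eval Y (DL A l δ) = 0) →
      eval Y δ = 0 := by
  induction r with
  | zero => exact fun q _ δ _ h => h [] rfl
  | succ r ih =>
    intro q hq δ hδ h
    have h1 : ∀ i, eval Y (DD A i δ) = 0 := by
      intro i
      refine ih (q - 1) (by omega) _ (isHomogeneous_DD hδ i) fun l hl => ?_
      rw [← DL_append]
      exact h _ (by rw [List.length_append, hl]; rfl)
    have h2 : ∑ j, Y j * eval Y (pderiv j δ) = 0 := by
      have e1 : ∑ i, x i * eval Y (DD A i δ) = ∑ j, Y j * eval Y (pderiv j δ) := by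
        unfold DD
        simp only [map_sum, map_mul, eval_C]
        simp only [Finset.mul_sum]
        rw [Finset.sum_comm]
        refine Finset.sum_congr rfl fun j _ => ?_
        rw [hx j, Finset.sum_mul]
        exact Finset.sum_congr rfl fun i _ => by ring
      rw [← e1]
      exact Finset.sum_eq_zero fun i _ => by rw [h1, mul_zero]
    have h3 := congrArg (eval Y) hδ.sum_X_mul_pderiv
    rw [map_sum, map_nsmul] at h3
    simp only [map_mul, eval_X] at h3
    rw [h2, nsmul_eq_mul] at h3
    have h4 : (q : ℂ) ≠ 0 := by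
      have : q ≠ 0 := by omega
      exact_mod_cast this
    exact (mul_eq_zero.1 h3.symm).resolve_left h4

/-- Independent rows: the columns span. -/
theorem exists_solve {A : Fin k → Fin n → ℂ} (hA : LinearIndependent ℂ A) (Y : Fin k → ℂ) :
    ∃ x : Fin n → ℂ, ∀ j, Y j = ∑ i, x i * A j i := by
  have h1 : Submodule.span ℂ (Set.range fun (i : Fin n) (j : Fin k) => A j i) = ⊤ := by
    have h2 : (Matrix.of A).rank = Fintype.card (Fin k) := LinearIndependent.rank_matrix hA
    rw [Matrix.rank_eq_finrank_span_cols] at h2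
    apply Submodule.eq_top_of_finrank_eq
    rw [Module.finrank_fintype_fun_eq_card, ← h2]
    rfl
  have h2 : Y ∈ Submodule.span ℂ (Set.range fun (i : Fin n) (j : Fin k) => A j i) := by
    rw [h1]
    exact Submodule.mem_top
  obtain ⟨x, hx⟩ := (Submodule.mem_span_range_iff_exists_fun ℂ).1 h2
  refine ⟨x, fun j => ?_⟩
  rw [← hx, Finset.sum_apply]
  rfl

/-- Forms of degree one. -/
theorem eval_of_isHomogeneous_one {A : Type} [CommRing A] {h : MvPolynomial (Fin k) A}
    (hh : h.IsHomogeneous 1) (y : Fin k → A) :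
    eval y h = ∑ i, coeff (Finsupp.single i 1) h * y i := by
  classical
  have h1 : h = ∑ i, C (coeff (Finsupp.single i 1) h) * X i := by
    ext v
    rw [coeff_sum]
    simp only [coeff_C_mul, coeff_X]
    by_cases hv : v.degree = 1
    · obtain ⟨i, rfl⟩ := IFT.exists_single hv
      rw [Finset.sum_eq_single i]
      · rw [if_pos rfl, mul_one]
      · intro j _ hj
        rw [if_neg, mul_zero]
        intro h
        exact hj (Finsupp.single_left_injective one_ne_zero h)
      · intro h
        exact absurd (Finset.mem_univ _) h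
    · have h2 : coeff v h = 0 := hh.coeff_eq_zero hv
      rw [h2, Finset.sum_eq_zero]
      intro i _
      rw [if_neg, mul_zero]
      rintro rfl
      exact hv (Finsupp.degree_single _ _)
  conv_lhs => rw [h1]
  rw [map_sum]
  refine Finset.sum_congr rfl fun i _ => ?_
  rw [map_mul, eval_C, eval_X]

/-- Among the derivatives of order `s` of a form of degree `s + 1` without critical points outside
the origin, some `k` are linearly independent. -/
theorem exists_lists {A : Fin k → Fin n → ℂ} (hA : LinearIndependent ℂ A)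
    {γ : MvPolynomial (Fin k) ℂ} {s : ℕ} (hs : 1 ≤ s) (hγ : γ.IsHomogeneous (s + 1))
    (hns : ∀ Y : Fin k → ℂ, Y ≠ 0 → ∃ j, eval Y (pderiv j γ) ≠ 0) :
    ∃ l : Fin k → List (Fin n), (∀ j, (l j).length = s) ∧
      LinearIndependent ℂ fun (j i : Fin k) => coeff (Finsupp.single i 1) (DL A (l j) γ) := by
  classical
  let b : List (Fin n) → Fin k → ℂ := fun l i => coeff (Finsupp.single i 1) (DL A l γ)
  have htop : Submodule.span ℂ (b '' {l | l.length = s}) = ⊤ := by
    by_contra hne
    obtain ⟨φ, hφ0, hφ⟩ := Submodule.exists_le_ker_of_lt_top _ (lt_top_iff_ne_top.2 hne)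
    let Y : Fin k → ℂ := fun i => φ (Pi.single i 1)
    have hY : ∀ v : Fin k → ℂ, φ v = ∑ i, v i * Y i := by
      intro v
      have h1 : v = ∑ i, v i • (Pi.single i (1 : ℂ) : Fin k → ℂ) := by
        funext j
        rw [Finset.sum_apply, Finset.sum_eq_single j]
        · simp
        · intro i _ hi
          rw [Pi.smul_apply, Pi.single_eq_of_ne (Ne.symm hi), smul_zero]
        · intro h
          exact absurd (Finset.mem_univ _) h
      conv_lhs => rw [h1]
      rw [map_sum]
      exact Finset.sum_congr rfl fun i _ => by rw [map_smul, smul_eq_mul]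
    have hY0 : Y ≠ 0 := by
      intro h
      apply hφ0
      ext i
      exact congrFun h i
    have h0 : ∀ l : List (Fin n), l.length = s → eval Y (DL A l γ) = 0 := by
      intro l hl
      have h1 : (DL A l γ).IsHomogeneous 1 := by
        have h2 := isHomogeneous_DL (A := A) hγ l
        rw [hl, Nat.add_sub_cancel_left] at h2
        exact h2
      rw [eval_of_isHomogeneous_one h1, ← hY]
      exact hφ (Submodule.subset_span ⟨l, hl, rfl⟩)
    obtain ⟨x, hx⟩ := exists_solve hA Y
    have h1 : ∀ i, eval Y (DD A i γ) = 0 := by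
      intro i
      refine eval_eq_zero_of_DL hx (s - 1) s (by omega) _ ?_ fun l hl => ?_
      · exact isHomogeneous_DD hγ i
      · rw [← DL_append]
        exact h0 _ (by rw [List.length_append, hl, List.length_singleton]; omega)
    obtain ⟨j, hj⟩ := hns Y hY0
    apply hj
    refine Fintype.linearIndependent_iff.1 hA (fun j => eval Y (pderiv j γ)) ?_ j
    funext i
    rw [Finset.sum_apply, Pi.zero_apply, ← h1 i]
    unfold DD
    rw [map_sum]
    refine Finset.sum_congr rfl fun j _ => ?_
    rw [map_mul, eval_C, Pi.smul_apply, smul_eq_mul, mul_comm]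
  obtain ⟨v, hv1, hv2⟩ : ∃ v : Fin k → (Fin k → ℂ), (∀ i, v i ∈ b '' {l | l.length = s}) ∧
      LinearIndependent ℂ v := by
    have h1 := Submodule.exists_fun_fin_finrank_span_eq ℂ (b '' {l | l.length = s})
    rw [htop, finrank_top, Module.finrank_fin_fun] at h1
    obtain ⟨v, hv1, _, hv2⟩ := h1
    exact ⟨v, hv1, hv2⟩
  choose l hl1 hl2 using hv1
  refine ⟨l, hl1, ?_⟩
  have : (fun (j i : Fin k) => coeff (Finsupp.single i 1) (DL A (l j) γ)) = v := funext hl2
  rw [this]
  exact hv2

end OR

end MPb07157
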