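import Pool.Agent.Lib.MP_b07157_agSC.OrdD

/-!
# Ordinary multiple points: the covering theorem
-/

noncomputable section

namespace MPb07157

open MvPolynomial

namespace OR

variable {n k m : ℕ}

/-- Translation as a ring homomorphism. -/
def tr (p : Fin n → ℂ) : MvPolynomial (Fin n) ℂ →+* MvPolynomial (Fin n) ℂ :=
  (aeval fun i => X i + C (p i) : MvPolynomial (Fin n) ℂ →ₐ[ℂ] MvPolynomial (Fin n) ℂ).toRingHom

theorem tr_apply (p : Fin n → ℂ) (f : MvPolynomial (Fin n) ℂ) : tr p f = translate p f := rfl

theorem dl_translate (l : List (Fin n)) (p : Fin n → ℂ) (f : MvPolynomial (Fin n) ℂ) :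
    dl l (translate p f) = translate p (dl l f) := by
  induction l with
  | nil => rfl
  | cons i l ih => rw [dl_cons, dl_cons, ih, pderiv_translate]

theorem translate_translate_neg (p : Fin n → ℂ) (f : MvPolynomial (Fin n) ℂ) :
    translate p (translate (fun i => -p i) f) = f := by
  have h := translate_neg_translate (fun i => -p i) f
  simp only [neg_neg] at h
  exact h

/-- Translation of `a f = g(u)`. -/
theorem translate_eq {f a : MvPolynomial (Fin n) ℂ} {u : Fin k → MvPolynomial (Fin n) ℂ}
    {g : MvPolynomial (Fin k) (MvPolynomial (Fin n) ℂ)} (h : a * f = eval u g) (p : Fin n → ℂ) :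
    translate p a * translate p f = eval (fun j => translate p (u j)) (map (tr p) g) := by
  have h1 := congrArg (tr p) h
  rw [map_mul, tr_apply, tr_apply] at h1
  rw [h1, eval_map, ← coe_eval₂Hom, ← RingHom.comp_apply]
  have h2 : (tr p).comp (eval u) = eval₂Hom (tr p) fun j => translate p (u j) := by
    refine ringHom_ext (fun a => ?_) fun j => ?_
    · rw [RingHom.comp_apply, eval_C, coe_eval₂Hom, eval₂_C]
    · rw [RingHom.comp_apply, eval_X, coe_eval₂Hom, eval₂_X, tr_apply]
  rw [h2]

theorem map_cc_tr (p : Fin n → ℂ) (g : MvPolynomial (Fin k) (MvPolynomial (Fin n) ℂ)) :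
    map constantCoeff (map (tr p) g) = map (eval p) g := by
  have h1 : (constantCoeff (R := ℂ) (σ := Fin n)).comp (tr p) = eval p := by
    refine RingHom.ext fun q => ?_
    rw [RingHom.comp_apply, tr_apply, MB.eval_eq_constantCoeff]
  rw [map_map, h1]

/-- A form of degree `m` in power series without constant terms has order at least `m`. -/
theorem lowZ_eval {y : Fin k → MvPowerSeries (Fin n) ℂ}
    (hy : ∀ j, MvPowerSeries.constantCoeff (y j) = 0)
    {g : MvPolynomial (Fin k) (MvPowerSeries (Fin n) ℂ)} (hg : g.IsHomogeneous m) :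
    LowZ m (eval y g) := by
  classical
  have h1 : ∀ j, LowZ 1 (y j) := by
    intro j v hv
    have hv0 : v = 0 := by
      ext i
      have h2 := Finset.single_le_sum (f := fun i => v i) (fun _ _ => Nat.zero_le _)
        (Finset.mem_univ i)
      simp only [Finsupp.coe_zero, Pi.zero_apply]
      omega
    rw [hv0, MvPowerSeries.coeff_zero_eq_constantCoeff_apply, hy]
  have hpow : ∀ (j : Fin k) (e : ℕ), LowZ e (y j ^ e) := by
    intro j e
    induction e with
    | zero => exact LowZ.zero _
    | succ e ih =>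
      rw [pow_succ]
      exact ih.mul (h1 j)
  have hprod : ∀ (s : Finset (Fin k)) (d : Fin k →₀ ℕ),
      LowZ (∑ j ∈ s, d j) (∏ j ∈ s, y j ^ d j) := by
    intro s d
    induction s using Finset.induction_on with
    | empty => exact LowZ.zero _
    | insert j s hj ih =>
      rw [Finset.sum_insert hj, Finset.prod_insert hj]
      exact (hpow j _).mul ih
  rw [eval_eq']
  refine LowZ.sum _ fun d hd => ?_
  have h2 : d.degree = m := by
    by_contra hne
    exact (mem_support_iff.1 hd) (hg.coeff_eq_zero hne)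
  rw [Finsupp.degree_eq_sum] at h2
  rw [← h2]
  exact (hprod Finset.univ d).mul_left _

theorem le_totalDegree_of_lowZ {F : MvPolynomial (Fin n) ℂ} (hF : F ≠ 0)
    (h : LowZ m (F : MvPowerSeries (Fin n) ℂ)) : m ≤ F.totalDegree := by
  by_contra hlt
  push Not at hlt
  apply hF
  ext v
  rw [coeff_zero]
  by_contra hv
  have h1 := le_totalDegree (mem_support_iff.2 hv)
  rw [Finsupp.sum_fintype _ _ (fun _ => rfl)] at h1
  have h2 := h v (by omega)
  rw [MvPolynomial.coeff_coe] at h2
  exact hv h2

theorem totalDegree_translate_le (p : Fin n → ℂ) (f : MvPolynomial (Fin n) ℂ) :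
    (translate p f).totalDegree ≤ f.totalDegree := by
  classical
  unfold translate
  rw [aeval_def, eval₂_eq]
  refine totalDegree_finsetSum_le fun v hv => ?_
  refine (totalDegree_mul _ _).trans ?_
  rw [algebraMap_eq, totalDegree_C, zero_add]
  refine (totalDegree_finsetProd _ _).trans ?_
  refine le_trans (Finset.sum_le_sum fun i _ => ?_) (le_totalDegree hv)
  refine (totalDegree_pow _ _).trans ?_
  refine le_trans (Nat.mul_le_mul_left _ ?_) (mul_one _).le
  refine (totalDegree_add _ _).trans ?_
  rw [totalDegree_X, totalDegree_C]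
  exact max_le le_rfl zero_le_one

/-- A sum of multiples of generators: some generator does not vanish at `p`. -/
theorem exists_gen {I : Ideal (MvPolynomial (Fin n) ℂ)} {G : Finset (MvPolynomial (Fin n) ℂ)}
    (hG : Ideal.span (G : Set (MvPolynomial (Fin n) ℂ)) = I) {a : MvPolynomial (Fin n) ℂ}
    (ha : a ∈ I) {p : Fin n → ℂ} (hp : eval p a ≠ 0) : ∃ b ∈ G, eval p b ≠ 0 := by
  by_contra hcon
  push Not at hcon
  apply hp
  have h1 : I ≤ RingHom.ker (eval p) := by
    rw [← hG, Ideal.span_le]
    intro b hb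
    exact hcon b hb
  exact h1 ha

end OR

/-- **The covering.** The ordinary multiple points of `f` along smooth germs are covered by finitely
many constructible sets along which `f` is semi-quasi-homogeneous with all weights one. -/
theorem exists_cover_ordMult {n : ℕ} {f : MvPolynomial (Fin n) ℂ} (hf : f ≠ 0) :
    ∃ T : Set (Set (Fin n → ℂ)), T.Finite ∧ (∀ p, OrdMult f p → ∃ W ∈ T, p ∈ W) ∧
      ∀ W ∈ T, IsConstr W ∧ ∃ k m, SqhAlong f W (fun _ : Fin k => 1) m := by
  classical
  have hG : ∀ (k m : ℕ) (l : Fin k → List (Fin n)), ∃ G : Finset (MvPolynomial (Fin n) ℂ),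
      Ideal.span (G : Set (MvPolynomial (Fin n) ℂ)) = OR.mI f (fun j => OR.dl (l j) f) m :=
    fun k m l => IsNoetherian.noetherian (OR.mI f (fun j => OR.dl (l j) f) m)
  choose G hG using hG
  have hg : ∀ (k m : ℕ) (l : Fin k → List (Fin n)) (a : MvPolynomial (Fin n) ℂ),
      ∃ g : MvPolynomial (Fin k) (MvPolynomial (Fin n) ℂ), a ∈ G k m l →
        g.IsHomogeneous m ∧ a * f = eval (fun j => OR.dl (l j) f) g := by
    intro k m l a
    by_cases ha : a ∈ G k m l
    · have h1 : a ∈ OR.mI f (fun j => OR.dl (l j) f) m := by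
        rw [← hG]
        exact Ideal.subset_span ha
      obtain ⟨g, h2, h3⟩ := h1
      exact ⟨g, fun _ => ⟨h2, h3⟩⟩
    · exact ⟨0, fun h => absurd h ha⟩
  choose g hg using hg
  refine ⟨⋃ k ∈ Finset.range (n + 1), ⋃ m ∈ Finset.Icc 2 f.totalDegree,
    ⋃ l ∈ {l : Fin k → List (Fin n) | ∀ j, l j ∈ {s : List (Fin n) | s.length = m - 1}},
    (fun a => OR.St (fun j => OR.dl (l j) f) a (g k m l a)) '' (G k m l), ?_, ?_, ?_⟩
  · refine Set.Finite.biUnion (Finset.finite_toSet _) fun k _ =>
      Set.Finite.biUnion (Finset.finite_toSet _) fun m _ => Set.Finite.biUnion ?_ fun l _ => ?_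
    · exact Set.Finite.pi' fun _ => List.finite_length_eq _ _
    · exact (Finset.finite_toSet _).image _
  · rintro p ⟨k, m, y, g₀, hm, hg₀, hF, hy, hLI, hns⟩
    have hLI' : LinearIndependent ℂ (OR.lin y) := by
      have h1 : (fun (j : Fin k) (i : Fin n) => MvPowerSeries.coeff (Finsupp.single i 1) (y j)) =
          OR.lin y := by
        funext j i
        rw [coeff_single_ps]
      rw [← h1]
      exact hLI
    obtain ⟨l, hl, hu0, huLI, ⟨a, g', ha, hg', haF⟩, huniv⟩ :=
      OR.local_zero hm hg₀ hF hy hLI' hns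
    have hkn : k ≤ n := by
      have h1 := hLI.fintype_card_le_finrank
      rwa [Fintype.card_fin, Module.finrank_fin_fun] at h1
    have hmd : m ≤ f.totalDegree :=
      (OR.le_totalDegree_of_lowZ (translate_ne_zero hf p) (by
        rw [hF]
        exact OR.lowZ_eval hy hg₀)).trans (OR.totalDegree_translate_le p f)
    -- the polynomial `a` at `p`
    have ha' : translate (fun i => -p i) a ∈ OR.mI f (fun j => OR.dl (l j) f) m := by
      refine ⟨map (OR.tr fun i => -p i) g', hg'.map _, ?_⟩
      have h1 := OR.translate_eq haF fun i => -p i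
      rw [translate_neg_translate] at h1
      rw [h1]
      congr 1
      congr 1
      funext j
      rw [OR.dl_translate, translate_neg_translate]
    have hpa : eval p (translate (fun i => -p i) a) ≠ 0 := by
      rw [MB.eval_eq_constantCoeff, OR.translate_translate_neg]
      exact ha
    obtain ⟨b, hb, hpb⟩ := OR.exists_gen (hG k m l) ha' hpa
    obtain ⟨hgb1, hgb2⟩ := hg k m l b hb
    refine ⟨OR.St (fun j => OR.dl (l j) f) b (g k m l b), ?_, hpb, fun j _ => ?_, ?_, ?_⟩
    · simp only [Set.mem_iUnion]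
      refine ⟨k, Finset.mem_range.2 (by omega), m, Finset.mem_Icc.2 ⟨hm, hmd⟩, l, hl, b, hb, rfl⟩
    · rw [MB.eval_eq_constantCoeff, ← OR.dl_translate]
      exact hu0 j
    · have h1 : (fun (j : Fin k) (i : Fin n) => eval p (pderiv i (OR.dl (l j) f))) =
          fun (j : Fin k) (i : Fin n) => constantCoeff (pderiv i (OR.dl (l j) (translate p f))) := by
        funext j i
        rw [MB.eval_eq_constantCoeff, OR.dl_translate, pderiv_translate]
      rw [h1]
      exact huLI
    · intro Y hY
      have h1 := OR.translate_eq hgb2 p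
      simp only [← OR.dl_translate] at h1
      obtain ⟨j, hj⟩ := huniv _ _ (by rw [← MB.eval_eq_constantCoeff]; exact hpb)
        (hgb1.map (OR.tr p)) h1 Y hY
      refine ⟨j, ?_⟩
      rw [OR.map_cc_tr, pderiv_map] at hj
      exact hj
  · intro W hW
    simp only [Set.mem_iUnion] at hW
    obtain ⟨k, _, m, hm, l, _, b, hb, rfl⟩ := hW
    obtain ⟨hgb1, hgb2⟩ := hg k m l b hb
    exact ⟨OR.isConstr_St _ _ _, k, m, OR.sqhAlong_St (Finset.mem_Icc.1 hm).1 hgb1 hgb2⟩

end MPb07157
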