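import Pool.Agent.Lib.MP_b07157_agE.EDefs

/-!
# Ordinary multiple points along smooth germs
-/

noncomputable section

namespace MPb07157

open MvPolynomial

variable {n : ℕ}

/-- The polynomial `f` has at `p` an ordinary multiple point along a smooth germ: there are `k`
power series `y_1, …, y_k` without constant terms and with linearly independent linear parts (a part
of a system of formal coordinates) such that `f(p + x)` is a form of degree `m ≥ 2` in
`y_1, …, y_k` whose coefficients are power series in `x`, and the form with the constant terms of
these coefficients has no critical points outside the origin. For `m = 2` these are the points at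
which `f` is, in suitable formal coordinates, a sum of squares of coordinates (Morse–Bott points). -/
def OrdMult (f : MvPolynomial (Fin n) ℂ) (p : Fin n → ℂ) : Prop :=
  ∃ (k m : ℕ) (y : Fin k → MvPowerSeries (Fin n) ℂ)
    (g : MvPolynomial (Fin k) (MvPowerSeries (Fin n) ℂ)),
    2 ≤ m ∧ g.IsHomogeneous m ∧ (translate p f : MvPowerSeries (Fin n) ℂ) = eval y g ∧
    (∀ j, MvPowerSeries.constantCoeff (y j) = 0) ∧
    (LinearIndependent ℂ fun (j : Fin k) (i : Fin n) =>
      MvPowerSeries.coeff (Finsupp.single i 1) (y j)) ∧
    ∀ Y : Fin k → ℂ, Y ≠ 0 →
      ∃ j, eval Y (pderiv j (map (MvPowerSeries.constantCoeff (σ := Fin n) (R := ℂ)) g)) ≠ 0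

end MPb07157
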