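import Pool.Agent.Lib.MP_b07157_agSC.Loc
import Pool.Agent.Lib.MP_b07157_agSA.Defs
import Pool.Agent.Lib.MP_b07157_agE.EMain

/-!
# Points of type `x_1^2 + ⋯ + x_r^2`: the covering
-/

noncomputable section

namespace MPb07157

open MvPolynomial

namespace MB

variable {n r : ℕ}

theorem eval_eq_constantCoeff (p : Fin n → ℂ) (g : MvPolynomial (Fin n) ℂ) :
    eval p g = constantCoeff (translate p g) := by
  have h := eval_translate_neg p (translate p g)
  rwa [translate_neg_translate] at h

/-- The local statement at any point. -/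
theorem exists_at {f : MvPolynomial (Fin n) ℂ} {p : Fin n → ℂ} {A : Finset (Fin n)}
    (h : FormEquivPow (translate p f) (∑ i ∈ A, X i ^ 2) 1) :
    ∃ (J : Fin A.card → Fin n) (a : MvPolynomial (Fin n) ℂ)
      (c : Fin A.card → Fin A.card → MvPolynomial (Fin n) ℂ), eval p a ≠ 0 ∧
      a * f = ∑ i, ∑ j, c i j * (pderiv (J i) f * pderiv (J j) f) ∧
      (Matrix.of fun i j => eval p (pderiv (J i) (pderiv (J j) f))).det ≠ 0 := by
  classical
  have e1 : (∑ i ∈ A, X i ^ 2 : MvPolynomial (Fin n) ℂ) =
      ∑ b, X (A.orderEmbOfFin rfl b) ^ 2 := by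
    conv_lhs => rw [← Finset.image_orderEmbOfFin_univ A rfl]
    rw [Finset.sum_image]
    intro x _ y _ hxy
    exact (A.orderEmbOfFin rfl).injective hxy
  rw [e1] at h
  obtain ⟨J, a, c, ha, hac, hd⟩ := exists_at_zero (A.orderEmbOfFin rfl).injective h
  refine ⟨J, translate (fun i => -p i) a, fun i j => translate (fun i => -p i) (c i j), ?_, ?_, ?_⟩
  · rw [eval_translate_neg]
    exact ha
  · have h1 := congrArg (translate (fun i => -p i)) hac
    have hm : ∀ x y : MvPolynomial (Fin n) ℂ, translate (fun i => -p i) (x * y) =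
        translate (fun i => -p i) x * translate (fun i => -p i) y := fun x y => by
      unfold translate
      rw [map_mul]
    have hs : ∀ g : Fin A.card → MvPolynomial (Fin n) ℂ, translate (fun i => -p i) (∑ i, g i) =
        ∑ i, translate (fun i => -p i) (g i) := fun g => by
      unfold translate
      rw [map_sum]
    rw [hm, translate_neg_translate, hs] at h1
    rw [h1]
    refine Finset.sum_congr rfl fun i _ => ?_
    rw [hs]
    refine Finset.sum_congr rfl fun j _ => ?_
    rw [hm, hm, pderiv_translate, pderiv_translate, translate_neg_translate,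
      translate_neg_translate]
  · have e2 : (Matrix.of fun i j => eval p (pderiv (J i) (pderiv (J j) f))) =
        Matrix.of fun i j => constantCoeff (pderiv (J i) (pderiv (J j) (translate p f))) := by
      ext i j
      rw [Matrix.of_apply, Matrix.of_apply, eval_eq_constantCoeff, pderiv_translate,
        pderiv_translate]
    rw [e2]
    exact hd

/-- The square of the ideal of some partial derivatives. -/
def sqI (f : MvPolynomial (Fin n) ℂ) (J : Fin r → Fin n) : Ideal (MvPolynomial (Fin n) ℂ) :=
  Ideal.span (Set.range fun q : Fin r × Fin r => pderiv (J q.1) f * pderiv (J q.2) f)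

/-- The polynomials `a` such that `a f` is in this ideal. -/
def aI (f : MvPolynomial (Fin n) ℂ) (J : Fin r → Fin n) : Ideal (MvPolynomial (Fin n) ℂ) where
  carrier := {a | a * f ∈ sqI f J}
  add_mem' := by
    intro a b ha hb
    show (a + b) * f ∈ sqI f J
    rw [add_mul]
    exact (sqI f J).add_mem ha hb
  zero_mem' := by
    show 0 * f ∈ sqI f J
    rw [zero_mul]
    exact (sqI f J).zero_mem
  smul_mem' := by
    intro c a ha
    show (c * a) * f ∈ sqI f J
    rw [mul_assoc]
    exact (sqI f J).mul_mem_left _ ha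

theorem mem_aI {f : MvPolynomial (Fin n) ℂ} {J : Fin r → Fin n} {a : MvPolynomial (Fin n) ℂ} :
    a ∈ aI f J ↔ a * f ∈ sqI f J := Iff.rfl

/-- The stratum. -/
def Wt (f : MvPolynomial (Fin n) ℂ) (J : Fin r → Fin n) (a : MvPolynomial (Fin n) ℂ) :
    Set (Fin n → ℂ) :=
  {p | (∀ i ∈ (Finset.univ : Finset (Fin n)), eval p (pderiv i f) = 0) ∧ eval p a ≠ 0 ∧
    eval p (Matrix.of fun i j => pderiv (J i) (pderiv (J j) f)).det ≠ 0}

theorem isConstr_Wt (f : MvPolynomial (Fin n) ℂ) (J : Fin r → Fin n)
    (a : MvPolynomial (Fin n) ℂ) : IsConstr (Wt f J a) := by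
  refine isConstr_setOf_and ?_ (isConstr_setOf_and (isConstr_ne_zero _) (isConstr_ne_zero _))
  exact isConstr_forall_mem _ _ fun i _ => isConstr_eq_zero _

theorem eval_det (f : MvPolynomial (Fin n) ℂ) (J : Fin r → Fin n) (p : Fin n → ℂ) :
    eval p (Matrix.of fun i j => pderiv (J i) (pderiv (J j) f)).det =
      (Matrix.of fun i j => eval p (pderiv (J i) (pderiv (J j) f))).det := by
  rw [RingHom.map_det]
  rfl

/-- Second derivatives of a product of two functions which vanish at `p`. -/
theorem eval_pderiv_pderiv_mul {c u v : MvPolynomial (Fin n) ℂ} {p : Fin n → ℂ}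
    (hu : eval p u = 0) (hv : eval p v = 0) (l m : Fin n) :
    eval p (pderiv l (pderiv m (c * (u * v)))) = eval p c *
      (eval p (pderiv l u) * eval p (pderiv m v) + eval p (pderiv m u) * eval p (pderiv l v)) := by
  simp only [pderiv_mul, map_add, map_mul, hu, hv]
  ring

theorem eval_pderiv_pderiv_mul' {a f : MvPolynomial (Fin n) ℂ} {p : Fin n → ℂ}
    (h0 : eval p f = 0) (h : ∀ i, eval p (pderiv i f) = 0) (l m : Fin n) :
    eval p (pderiv l (pderiv m (a * f))) = eval p a * eval p (pderiv l (pderiv m f)) := by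
  simp only [pderiv_mul, map_add, map_mul, h0, h]
  ring

/-- Along the strata `f` is semi-quasi-homogeneous. -/
theorem sqhAlong_Wt {f : MvPolynomial (Fin n) ℂ} {J : Fin r → Fin n}
    {a : MvPolynomial (Fin n) ℂ} (ha : a ∈ aI f J) :
    SqhAlong f (Wt f J a) (fun _ : Fin r => 1) 2 := by
  classical
  obtain ⟨c, hc⟩ := (Ideal.mem_span_range_iff_exists_fun).1 (mem_aI.1 ha)
  rw [Fintype.sum_prod_type] at hc
  set g : MvPolynomial (Fin r) (MvPolynomial (Fin n) ℂ) :=
    ∑ i, ∑ j, C (c (i, j)) * (X i * X j) with hg
  have hgh : g.IsHomogeneous 2 := by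
    rw [hg]
    refine IsHomogeneous.sum _ _ _ fun i _ => IsHomogeneous.sum _ _ _ fun j _ => ?_
    exact ((isHomogeneous_X _ i).mul (isHomogeneous_X _ j)).C_mul _
  refine ⟨two_pos, fun _ => ⟨one_pos, one_lt_two⟩, a, fun j => pderiv (J j) f, g, ?_, ?_, ?_⟩
  · rw [← hc, hg]
    simp only [map_sum, map_mul, eval_C, eval_X]
  · intro v hv
    have h1 : v.degree = 2 := by
      by_contra hne
      exact (mem_support_iff.1 hv) (hgh.coeff_eq_zero hne)
    rw [Finsupp.degree_eq_sum] at h1
    simp only [one_mul]
    exact h1.ge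
  · intro p hp
    obtain ⟨hp1, hpa, hpd⟩ := hp
    have hp1' : ∀ i, eval p (pderiv i f) = 0 := fun i => hp1 i (Finset.mem_univ i)
    rw [eval_det] at hpd
    have hp0 : eval p f = 0 := by
      have h1 := congrArg (eval p) hc
      rw [map_sum, Finset.sum_eq_zero, map_mul] at h1
      · exact (mul_eq_zero.1 h1.symm).resolve_left hpa
      · intro i _
        rw [map_sum]
        refine Finset.sum_eq_zero fun j _ => ?_
        rw [map_mul, map_mul, hp1', zero_mul, mul_zero]
    obtain ⟨H, hH⟩ : ∃ H : Matrix (Fin r) (Fin r) ℂ,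
        H = Matrix.of fun i j => eval p (pderiv (J i) (pderiv (J j) f)) := ⟨_, rfl⟩
    obtain ⟨K, hK⟩ : ∃ K : Matrix (Fin r) (Fin r) ℂ,
        K = Matrix.of fun i j => eval p (c (i, j)) + eval p (c (j, i)) := ⟨_, rfl⟩
    rw [← hH] at hpd
    have key : (eval p a) • H = H * K * H.transpose := by
      ext s t
      have h1 := congrArg (fun G => eval p (pderiv (J s) (pderiv (J t) G))) hc
      simp only [map_sum] at h1
      rw [eval_pderiv_pderiv_mul' hp0 hp1'] at h1
      simp only [eval_pderiv_pderiv_mul (hp1' _) (hp1' _)] at h1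
      have h2 : ∀ i j, H i j = eval p (pderiv (J i) (pderiv (J j) f)) := fun i j => by rw [hH]; rfl
      simp only [← h2] at h1
      rw [Matrix.smul_apply, smul_eq_mul, ← h1, Matrix.mul_apply]
      simp only [Matrix.mul_apply, Matrix.transpose_apply, hK, Matrix.of_apply, Finset.sum_mul]
      have h3 : ∀ i j : Fin r, eval p (c (i, j)) * (H s i * H t j + H t i * H s j) =
          eval p (c (i, j)) * (H s i * H t j) + eval p (c (i, j)) * (H t i * H s j) :=
        fun i j => by ring
      have h4 : ∀ x y : Fin r, H s y * (eval p (c (y, x)) + eval p (c (x, y))) * H t x =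
          eval p (c (y, x)) * (H s y * H t x) + eval p (c (x, y)) * (H t x * H s y) :=
        fun x y => by ring
      simp only [h3, h4, Finset.sum_add_distrib]
      congr 1
      exact Finset.sum_comm
    have hKd : K.det ≠ 0 := by
      have h1 := congrArg Matrix.det key
      rw [Matrix.det_smul, Matrix.det_mul, Matrix.det_mul, Matrix.det_transpose] at h1
      intro h0
      rw [h0, mul_zero, zero_mul] at h1
      exact mul_ne_zero (pow_ne_zero _ hpa) hpd h1
    refine ⟨hpa, fun j => hp1' _, ?_, ?_⟩
    · have h1 : LinearIndependent ℂ (H.transpose).row := by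
        rw [Matrix.linearIndependent_rows_iff_isUnit, Matrix.isUnit_iff_isUnit_det,
          Matrix.det_transpose]
        exact isUnit_iff_ne_zero.2 hpd
      refine LinearIndependent.of_comp (LinearMap.funLeft ℂ ℂ J) ?_
      have h2 : (LinearMap.funLeft ℂ ℂ J) ∘ (fun (j : Fin r) (l : Fin n) =>
          eval p (pderiv l (pderiv (J j) f))) = (H.transpose).row := by
        funext j i
        rw [Function.comp_apply, LinearMap.funLeft_apply]
        show _ = H.transpose j i
        rw [Matrix.transpose_apply, hH, Matrix.of_apply]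
      rw [h2]
      exact h1
    · intro y hy
      have hq : map (eval p) g = ∑ i, ∑ j, C (eval p (c (i, j))) * (X i * X j) := by
        rw [hg]
        simp only [map_sum, map_mul, map_C, map_X]
      have hqh : (map (eval p) g).IsWeightedHomogeneous (fun _ : Fin r => 1) 2 := by
        rw [hq]
        refine IsHomogeneous.sum _ _ _ fun i _ => IsHomogeneous.sum _ _ _ fun j _ => ?_
        exact ((isHomogeneous_X _ i).mul (isHomogeneous_X _ j)).C_mul _
      rw [hqh.weightedHomogeneousComponent_same]
      by_contra hcon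
      push Not at hcon
      apply hy
      have h1 : K.mulVec y = 0 := by
        funext l
        have h2 := hcon l
        rw [hq, map_sum, map_sum] at h2
        have h3 : ∀ i, eval y (pderiv l (∑ j, C (eval p (c (i, j))) * (X i * X j))) =
            ∑ j, eval p (c (i, j)) * ((if i = l then y j else 0) + (if j = l then y i else 0)) := by
          intro i
          rw [map_sum, map_sum]
          refine Finset.sum_congr rfl fun j _ => ?_
          rw [pderiv_C_mul, pderiv_mul, map_mul, eval_C, map_add, map_mul, map_mul, eval_X, eval_X]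
          congr 1
          by_cases hi : i = l <;> by_cases hj : j = l
          · subst hi hj
            simp
          · subst hi
            rw [pderiv_X_self, pderiv_X_of_ne hj, if_pos rfl, if_neg hj]
            simp
          · subst hj
            rw [pderiv_X_self, pderiv_X_of_ne hi, if_pos rfl, if_neg hi]
            simp
          · rw [pderiv_X_of_ne hi, pderiv_X_of_ne hj, if_neg hi, if_neg hj]
            simp
        simp only [h3, mul_add, Finset.sum_add_distrib, mul_ite, mul_zero] at h2
        rw [Finset.sum_comm] at h2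
        simp only [Finset.sum_ite_eq', Finset.mem_univ, if_true] at h2
        show ∑ j, K l j * y j = 0
        rw [← h2, hK, ← Finset.sum_add_distrib]
        refine Finset.sum_congr rfl fun j _ => ?_
        rw [Matrix.of_apply]
        ring
      exact Matrix.eq_zero_of_mulVec_eq_zero hKd h1

/-- **The covering.** If `f` is of the type `x_1^2 + ⋯ + x_r^2` at each of its critical zeros in a
set `S`, with `r` depending on the point, then these points are covered by finitely many
constructible sets, along each of which `f` is semi-quasi-homogeneous with all weights one and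
`N = 2`. -/
theorem exists_cover {f : MvPolynomial (Fin n) ℂ} (hf : f ≠ 0) (S : Set (Fin n → ℂ))
    (h : ∀ p ∈ S, (∀ i, eval p (pderiv i f) = 0) →
      ∃ A : Finset (Fin n), FormEquivPow (translate p f) (∑ i ∈ A, X i ^ 2) 1) :
    ∃ T : Set (Set (Fin n → ℂ)), T.Finite ∧
      (∀ p ∈ S, (∀ i, eval p (pderiv i f) = 0) → ∃ W ∈ T, p ∈ W) ∧
      ∀ W ∈ T, IsConstr W ∧ ∃ r, 0 < r ∧ SqhAlong f W (fun _ : Fin r => 1) 2 := by
  classical
  have hG : ∀ (r : ℕ) (J : Fin r → Fin n), ∃ G : Finset (MvPolynomial (Fin n) ℂ),
      Ideal.span (G : Set (MvPolynomial (Fin n) ℂ)) = aI f J := fun r J =>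
    IsNoetherian.noetherian (aI f J)
  choose G hG using hG
  refine ⟨⋃ r ∈ Finset.Icc 1 n, ⋃ J : Fin r → Fin n, (fun a => Wt f J a) '' (G r J), ?_, ?_, ?_⟩
  · refine Set.Finite.biUnion (Finset.finite_toSet _) fun r _ => Set.finite_iUnion fun J => ?_
    exact (Finset.finite_toSet _).image _
  · intro p hp hcr
    obtain ⟨A, hA⟩ := h p hp hcr
    obtain ⟨J, a, c, ha, hac, hd⟩ := exists_at hA
    have hA0 : 0 < A.card := by
      rw [Finset.card_pos]
      by_contra hne
      rw [Finset.not_nonempty_iff_eq_empty] at hne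
      obtain ⟨E, u, hE⟩ := hA
      rw [hne, Finset.sum_empty, MvPolynomial.coe_zero, map_zero, pow_one, mul_zero] at hE
      refine translate_ne_zero hf p (MvPolynomial.coe_injective _ _ ?_)
      rw [hE, MvPolynomial.coe_zero]
    have haI : a ∈ aI f J := by
      rw [mem_aI, hac]
      refine Ideal.sum_mem _ fun i _ => Ideal.sum_mem _ fun j _ => ?_
      exact Ideal.mul_mem_left _ _ (Ideal.subset_span ⟨(i, j), rfl⟩)
    obtain ⟨b, hb, hbp⟩ : ∃ b ∈ G _ J, eval p b ≠ 0 := by
      by_contra hcon
      push Not at hcon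
      apply ha
      have h1 : aI f J ≤ RingHom.ker (eval p) := by
        rw [← hG]
        exact Ideal.span_le.2 fun b hb => hcon b hb
      exact h1 haI
    refine ⟨Wt f J b, ?_, fun i _ => hcr i, hbp, ?_⟩
    · simp only [Set.mem_iUnion]
      refine ⟨A.card, ?_, J, b, hb, rfl⟩
      rw [Finset.mem_Icc]
      refine ⟨hA0, ?_⟩
      have := Finset.card_le_univ A
      rwa [Fintype.card_fin] at this
    · rw [eval_det]
      exact hd
  · intro W hW
    simp only [Set.mem_iUnion] at hW
    obtain ⟨r, hr, J, a, ha, rfl⟩ := hW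
    rw [Finset.mem_Icc] at hr
    refine ⟨isConstr_Wt f J a, r, hr.1, sqhAlong_Wt ?_⟩
    rw [← hG]
    exact Ideal.subset_span ha

end MB

end MPb07157
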