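import Pool.Agent.Lib.MP_b07157_agI.IsoB
import Pool.Agent.Lib.MP_b07157_agK.K1s
import Pool.Agent.Lib.MP_b07157_agYN.Krull
import Pool.Agent.Lib.MP_b07157_agE.ET

/-!
# Points of type `x_1^2 + ⋯ + x_r^2`: the local statement
-/

noncomputable section

namespace MPb07157

open MvPolynomial

namespace MB

variable {n r : ℕ}

/-- If `F` is a unit times `∑ X_b^2`, `b` in `r` of the variables, in formal coordinates, then a
polynomial `a`, `a(0) ≠ 0`, times `F` is in the square of the ideal generated by `r` of the partial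
derivatives, whose Hessian determinant does not vanish at the origin. -/
theorem exists_at_zero {F : MvPolynomial (Fin n) ℂ} {ι : Fin r → Fin n}
    (hι : Function.Injective ι) (h : FormEquivPow F (∑ b, X (ι b) ^ 2) 1) :
    ∃ (J : Fin r → Fin n) (a : MvPolynomial (Fin n) ℂ) (c : Fin r → Fin r → MvPolynomial (Fin n) ℂ),
      constantCoeff a ≠ 0 ∧
      a * F = ∑ i, ∑ j, c i j * (pderiv (J i) F * pderiv (J j) F) ∧
      (Matrix.of fun i j => constantCoeff (pderiv (J i) (pderiv (J j) F))).det ≠ 0 := by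
  classical
  obtain ⟨E, u, hF⟩ := h
  obtain ⟨y, hy⟩ : ∃ y : Fin r → MvPowerSeries (Fin n) ℂ, ∀ b, y b = E (MvPowerSeries.X (ι b)) :=
    ⟨_, fun _ => rfl⟩
  have hF' : (F : MvPowerSeries (Fin n) ℂ) = u * ∑ b, y b ^ 2 := by
    rw [hF, pow_one]
    congr 1
    have e1 : ((∑ b, X (ι b) ^ 2 : MvPolynomial (Fin n) ℂ) : MvPowerSeries (Fin n) ℂ) =
        ∑ b, MvPowerSeries.X (ι b) ^ 2 := by
      rw [← MvPolynomial.coeToMvPowerSeries.ringHom_apply, map_sum]
      refine Finset.sum_congr rfl fun b _ => ?_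
      rw [map_pow, MvPolynomial.coeToMvPowerSeries.ringHom_apply, MvPolynomial.coe_X]
    rw [e1, map_sum]
    refine Finset.sum_congr rfl fun b _ => ?_
    rw [map_pow, hy]
  have hy0 : ∀ b, MvPowerSeries.constantCoeff (y b) = 0 := by
    intro b
    rw [hy, constantCoeff_equiv, MvPowerSeries.constantCoeff_X]
  have hu0 : MvPowerSeries.constantCoeff (u : MvPowerSeries (Fin n) ℂ) ≠ 0 := by
    have := MvPowerSeries.isUnit_iff_constantCoeff.1 u.isUnit
    exact this.ne_zero
  -- the Jacobian
  have hLI : LinearIndependent ℂ fun (b : Fin r) (l : Fin n) =>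
      MvPowerSeries.constantCoeff (MvPowerSeries.pderiv ℂ l (y b)) := by
    have h1 := jac_det_ne_zero E
    have h2 : LinearIndependent ℂ (Matrix.of fun i j => MvPowerSeries.coeff (Finsupp.single j 1)
        (E (MvPowerSeries.X i))) :=
      Matrix.linearIndependent_rows_iff_isUnit.2
        ((Matrix.isUnit_iff_isUnit_det _).2 (isUnit_iff_ne_zero.2 h1))
    have h3 := h2.comp ι hι
    have h4 : (fun (b : Fin r) (l : Fin n) =>
        MvPowerSeries.constantCoeff (MvPowerSeries.pderiv ℂ l (y b))) =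
        (Matrix.of fun i j => MvPowerSeries.coeff (Finsupp.single j 1)
        (E (MvPowerSeries.X i))) ∘ ι := by
      funext b l
      rw [Function.comp_apply, Matrix.of_apply, ← coeff_single_ps, hy]
    rw [h4]
    exact h3
  obtain ⟨J, hJ⟩ := exists_minor _ hLI
  -- the partial derivatives
  obtain ⟨N, hN⟩ : ∃ N : Fin n → Fin r → MvPowerSeries (Fin n) ℂ, ∀ l b, N l b =
      2 * u * MvPowerSeries.pderiv ℂ l (y b) +
        MvPowerSeries.pderiv ℂ l (u : MvPowerSeries (Fin n) ℂ) * y b := ⟨_, fun _ _ => rfl⟩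
  have hd : ∀ l, ((pderiv l F : MvPolynomial (Fin n) ℂ) : MvPowerSeries (Fin n) ℂ) =
      ∑ b, N l b * y b := by
    intro l
    rw [← MvPowerSeries.pderiv_coe, hF', Derivation.leibniz, smul_eq_mul, smul_eq_mul, map_sum,
      Finset.mul_sum, Finset.sum_mul, ← Finset.sum_add_distrib]
    refine Finset.sum_congr rfl fun b _ => ?_
    rw [hN, Derivation.leibniz_pow]
    simp only [smul_eq_mul, nsmul_eq_mul]
    push_cast
    ring
  have hN0 : ∀ l b, MvPowerSeries.constantCoeff (N l b) =
      2 * MvPowerSeries.constantCoeff (u : MvPowerSeries (Fin n) ℂ) *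
        MvPowerSeries.constantCoeff (MvPowerSeries.pderiv ℂ l (y b)) := by
    intro l b
    rw [hN, map_add, map_mul, map_mul, map_mul, hy0, mul_zero, add_zero, map_ofNat]
  obtain ⟨M, hM⟩ : ∃ M : Matrix (Fin r) (Fin r) (MvPowerSeries (Fin n) ℂ),
      M = Matrix.of fun i b => N (J i) b := ⟨_, rfl⟩
  have hM0 : (M.map MvPowerSeries.constantCoeff).det ≠ 0 := by
    have e1 : M.map MvPowerSeries.constantCoeff =
        (2 * MvPowerSeries.constantCoeff (u : MvPowerSeries (Fin n) ℂ)) •
          (Matrix.of fun i j => MvPowerSeries.constantCoeff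
            (MvPowerSeries.pderiv ℂ (J j) (y i))).transpose := by
      ext i b
      rw [Matrix.map_apply, hM, Matrix.of_apply, hN0, Matrix.smul_apply, Matrix.transpose_apply,
        Matrix.of_apply, smul_eq_mul]
    rw [e1, Matrix.det_smul, Matrix.det_transpose]
    exact mul_ne_zero (pow_ne_zero _ (mul_ne_zero two_ne_zero hu0)) hJ
  have hMu : IsUnit M.det := by
    rw [MvPowerSeries.isUnit_iff_constantCoeff, isUnit_iff_ne_zero, RingHom.map_det]
    exact hM0
  have hyM : ∀ b, y b = ∑ i, M⁻¹ b i *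
      ((pderiv (J i) F : MvPolynomial (Fin n) ℂ) : MvPowerSeries (Fin n) ℂ) := by
    intro b
    have e1 : ∀ i, ((pderiv (J i) F : MvPolynomial (Fin n) ℂ) : MvPowerSeries (Fin n) ℂ) =
        M.mulVec y i := by
      intro i
      rw [hd, hM]
      rfl
    have e2 : (M⁻¹).mulVec (M.mulVec y) = y := by
      rw [Matrix.mulVec_mulVec, Matrix.nonsing_inv_mul _ hMu, Matrix.one_mulVec]
    have e3 := congrFun e2 b
    rw [← e3]
    show ∑ i, M⁻¹ b i * M.mulVec y i = _
    exact Finset.sum_congr rfl fun i _ => by rw [e1]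
  -- `F` in the square of the ideal
  have hFs : (F : MvPowerSeries (Fin n) ℂ) = ∑ k : Fin (r * r),
      (u * ∑ b, M⁻¹ b (finProdFinEquiv.symm k).1 * M⁻¹ b (finProdFinEquiv.symm k).2) *
        ((pderiv (J (finProdFinEquiv.symm k).1) F * pderiv (J (finProdFinEquiv.symm k).2) F :
          MvPolynomial (Fin n) ℂ) : MvPowerSeries (Fin n) ℂ) := by
    rw [Equiv.sum_comp (finProdFinEquiv (m := r) (n := r)).symm (fun p : Fin r × Fin r =>
      (u * ∑ b, M⁻¹ b p.1 * M⁻¹ b p.2) *
        ((pderiv (J p.1) F * pderiv (J p.2) F :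
          MvPolynomial (Fin n) ℂ) : MvPowerSeries (Fin n) ℂ)), Fintype.sum_prod_type, hF']
    have e1 : ∀ b, y b ^ 2 = ∑ i, ∑ j, M⁻¹ b i * M⁻¹ b j *
        ((pderiv (J i) F * pderiv (J j) F : MvPolynomial (Fin n) ℂ) :
          MvPowerSeries (Fin n) ℂ) := by
      intro b
      rw [pow_two]
      nth_rewrite 1 [hyM b]
      rw [Finset.sum_mul]
      refine Finset.sum_congr rfl fun i _ => ?_
      rw [hyM b, Finset.mul_sum]
      refine Finset.sum_congr rfl fun j _ => ?_
      rw [MvPolynomial.coe_mul]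
      ring
    simp only [e1]
    have e2 : ∀ i j : Fin r, (u * ∑ b, M⁻¹ b i * M⁻¹ b j) *
        ((pderiv (J i) F * pderiv (J j) F : MvPolynomial (Fin n) ℂ) : MvPowerSeries (Fin n) ℂ) =
        ∑ b, u * (M⁻¹ b i * M⁻¹ b j *
          ((pderiv (J i) F * pderiv (J j) F : MvPolynomial (Fin n) ℂ) :
            MvPowerSeries (Fin n) ℂ)) := by
      intro i j
      rw [Finset.mul_sum, Finset.sum_mul]
      exact Finset.sum_congr rfl fun b _ => by ring
    rw [Finset.sum_congr rfl fun i _ => Finset.sum_congr rfl fun j _ => e2 i j, Finset.mul_sum,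
      Finset.sum_congr rfl fun i _ => Finset.sum_comm, Finset.sum_comm]
    refine Finset.sum_congr rfl fun b _ => ?_
    rw [Finset.mul_sum]
    refine Finset.sum_congr rfl fun i _ => ?_
    rw [Finset.mul_sum]
  obtain ⟨s, b, hs, hsb⟩ := YN.exists_local (fun k : Fin (r * r) =>
    pderiv (J (finProdFinEquiv.symm k).1) F * pderiv (J (finProdFinEquiv.symm k).2) F) F _ hFs
  refine ⟨J, s, fun i j => b (finProdFinEquiv (i, j)), hs, ?_, ?_⟩
  · rw [hsb, ← Equiv.sum_comp (finProdFinEquiv (m := r) (n := r)), Fintype.sum_prod_type]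
    refine Finset.sum_congr rfl fun i _ => Finset.sum_congr rfl fun j _ => ?_
    rw [Equiv.symm_apply_apply]
  · have e1 : (Matrix.of fun i j => constantCoeff (pderiv (J i) (pderiv (J j) F))) =
        ((M.map MvPowerSeries.constantCoeff) * (Matrix.of fun i j => MvPowerSeries.constantCoeff
            (MvPowerSeries.pderiv ℂ (J j) (y i)))).transpose := by
      ext i j
      rw [Matrix.of_apply, Matrix.transpose_apply, Matrix.mul_apply]
      have e2 : constantCoeff (pderiv (J i) (pderiv (J j) F)) =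
          MvPowerSeries.constantCoeff (MvPowerSeries.pderiv ℂ (J i)
            ((pderiv (J j) F : MvPolynomial (Fin n) ℂ) : MvPowerSeries (Fin n) ℂ)) := by
        rw [MvPowerSeries.pderiv_coe, ← MvPowerSeries.coeff_zero_eq_constantCoeff_apply,
          MvPolynomial.coeff_coe, MvPolynomial.constantCoeff_eq]
      rw [e2, hd, map_sum, map_sum]
      refine Finset.sum_congr rfl fun b _ => ?_
      rw [Derivation.leibniz, smul_eq_mul, smul_eq_mul, map_add, map_mul, map_mul, hy0, zero_mul,
        add_zero, Matrix.map_apply, hM, Matrix.of_apply, Matrix.of_apply]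
    rw [e1, Matrix.det_transpose, Matrix.det_mul]
    exact mul_ne_zero hM0 hJ

end MB

end MPb07157
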