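import Mathlib

/-!
# Principal minors of symmetric matrices
-/

noncomputable section

namespace MPb07157

namespace MB

/-- A symmetric matrix of rank `r` has a principal minor of order `r` which is not zero. -/
theorem exists_principal_minor {K : Type*} [Field K] {n : ℕ} (A : Matrix (Fin n) (Fin n) K)
    (hA : A.IsSymm) :
    ∃ I : Fin A.rank → Fin n, Function.Injective I ∧ (A.submatrix I I).det ≠ 0 := by
  classical
  obtain ⟨f, hf1, hf2, hf3⟩ : ∃ f : Fin A.rank → (Fin n → K), (∀ i, f i ∈ Set.range A.row) ∧
      Submodule.span K (Set.range f) = Submodule.span K (Set.range A.row) ∧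
      LinearIndependent K f := by
    rw [Matrix.rank_eq_finrank_span_row]
    exact Submodule.exists_fun_fin_finrank_span_eq K _
  choose I hI using hf1
  have hfI : f = fun i => A.row (I i) := funext fun i => (hI i).symm
  subst hfI
  refine ⟨I, fun i j hij => hf3.injective (by show A.row (I i) = A.row (I j); rw [hij]), ?_⟩
  have hB : ∀ i, ∃ B : Fin A.rank → K, ∑ k, B k • A.row (I k) = A.row i := by
    intro i
    have h1 : A.row i ∈ Submodule.span K (Set.range fun k => A.row (I k)) := by
      rw [hf2]
      exact Submodule.subset_span ⟨i, rfl⟩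
    exact (Submodule.mem_span_range_iff_exists_fun K).1 h1
  choose B hB using hB
  have e1 : ∀ i j, A i j = ∑ k, B i k * A (I k) j := by
    intro i j
    have h1 := congrFun (hB i) j
    rw [Finset.sum_apply] at h1
    exact h1.symm
  have hs : ∀ i j, A i j = A j i := fun i j => by
    conv_lhs => rw [← hA]
    rfl
  have h2 : LinearIndependent K (A.submatrix I I).row := by
    rw [Fintype.linearIndependent_iff]
    intro g hg
    refine Fintype.linearIndependent_iff.1 hf3 g ?_
    funext j
    rw [Finset.sum_apply, Pi.zero_apply]
    show ∑ i, g i * A (I i) j = 0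
    have e2 : ∀ i, A (I i) j = ∑ k, B j k * A (I i) (I k) := by
      intro i
      rw [hs (I i) j, e1 j (I i)]
      exact Finset.sum_congr rfl fun k _ => by rw [hs (I k) (I i)]
    calc ∑ i, g i * A (I i) j = ∑ i, ∑ k, B j k * (g i * A (I i) (I k)) := by
          refine Finset.sum_congr rfl fun i _ => ?_
          rw [e2, Finset.mul_sum]
          exact Finset.sum_congr rfl fun k _ => by ring
      _ = ∑ k, B j k * ∑ i, g i * A (I i) (I k) := by
          rw [Finset.sum_comm]
          exact Finset.sum_congr rfl fun k _ => by rw [Finset.mul_sum]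
      _ = 0 := by
          refine Finset.sum_eq_zero fun k _ => ?_
          have h3 := congrFun hg k
          rw [Finset.sum_apply] at h3
          have h4 : ∑ i, g i * A (I i) (I k) = 0 := h3
          rw [h4, mul_zero]
  exact ((Matrix.isUnit_iff_isUnit_det _).1
    (Matrix.linearIndependent_rows_iff_isUnit.1 h2)).ne_zero

end MB

end MPb07157
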