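import Pool.Agent.Lib.MP_b07157_agSC.Cover

/-!
# Derivatives of forms in power series
-/

noncomputable section

namespace MPb07157

open MvPolynomial

namespace OR

variable {n k m : ℕ}

section

variable {A : Type} [CommRing A] [Algebra ℂ A]

/-- The derivative of the coefficients. -/
def cd (D : Derivation ℂ A A) (g : MvPolynomial (Fin k) A) : MvPolynomial (Fin k) A :=
  ∑ v ∈ g.support, monomial v (D (coeff v g))

theorem coeff_cd (D : Derivation ℂ A A) (g : MvPolynomial (Fin k) A) (w : Fin k →₀ ℕ) :
    coeff w (cd D g) = D (coeff w g) := by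
  classical
  unfold cd
  rw [coeff_sum]
  simp only [coeff_monomial]
  rw [Finset.sum_ite_eq']
  split_ifs with h
  · rfl
  · rw [notMem_support_iff.1 h, map_zero]

theorem cd_add (D : Derivation ℂ A A) (g h : MvPolynomial (Fin k) A) :
    cd D (g + h) = cd D g + cd D h := by
  ext w
  rw [coeff_add, coeff_cd, coeff_cd, coeff_cd, coeff_add, map_add]

theorem cd_C (D : Derivation ℂ A A) (a : A) : cd D (C a : MvPolynomial (Fin k) A) = C (D a) := by
  classical
  ext w
  rw [coeff_cd, coeff_C, coeff_C]
  split_ifs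
  · rfl
  · rw [map_zero]

theorem cd_mul_X (D : Derivation ℂ A A) (g : MvPolynomial (Fin k) A) (i : Fin k) :
    cd D (g * X i) = cd D g * X i := by
  classical
  ext w
  rw [coeff_cd, coeff_mul_X', coeff_mul_X']
  split_ifs
  · rw [coeff_cd]
  · rw [map_zero]

theorem isHomogeneous_cd {D : Derivation ℂ A A} {g : MvPolynomial (Fin k) A}
    (hg : g.IsHomogeneous m) : (cd D g).IsHomogeneous m := by
  intro w hw
  rw [coeff_cd] at hw
  refine hg fun h => hw ?_
  rw [h, map_zero]

/-- The derivative of a polynomial in elements of a ring. -/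
theorem deriv_eval (D : Derivation ℂ A A) (y : Fin k → A) (g : MvPolynomial (Fin k) A) :
    D (eval y g) = eval y (cd D g) + ∑ j, D (y j) * eval y (pderiv j g) := by
  classical
  induction g using MvPolynomial.induction_on with
  | C a =>
    rw [eval_C, cd_C, eval_C]
    simp
  | add p q hp hq =>
    rw [map_add, map_add, hp, hq, cd_add, map_add]
    simp only [map_add, mul_add, Finset.sum_add_distrib]
    ring
  | mul_X p i hp =>
    rw [map_mul, eval_X, Derivation.leibniz, hp, cd_mul_X, map_mul, eval_X]
    simp only [pderiv_mul, pderiv_X, map_add, map_mul, eval_X, smul_eq_mul]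
    have h2 : ∑ j, D (y j) * (eval y (pderiv j p) * y i + eval y p *
        eval y (Pi.single (M := fun _ => MvPolynomial (Fin k) A) j 1 i)) =
        y i * ∑ j, D (y j) * eval y (pderiv j p) + eval y p * D (y i) := by
      simp only [mul_add, Finset.sum_add_distrib]
      congr 1
      · rw [Finset.mul_sum]
        exact Finset.sum_congr rfl fun j _ => by ring
      · rw [Finset.sum_eq_single i]
        · rw [Pi.single_eq_same, map_one]
          ring
        · intro j _ hj
          rw [Pi.single_eq_of_ne (Ne.symm hj), map_zero]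
          ring
        · intro h
          exact absurd (Finset.mem_univ _) h
    rw [h2]
    ring

end

/-- The constant coefficients. -/
abbrev cc (g : MvPolynomial (Fin k) (MvPowerSeries (Fin n) ℂ)) : MvPolynomial (Fin k) ℂ :=
  map (MvPowerSeries.constantCoeff (σ := Fin n) (R := ℂ)) g

theorem cc_pderiv (g : MvPolynomial (Fin k) (MvPowerSeries (Fin n) ℂ)) (j : Fin k) :
    cc (pderiv j g) = pderiv j (cc g) := by
  unfold cc
  rw [pderiv_map]

/-- One derivative. -/
theorem step {y : Fin k → MvPowerSeries (Fin n) ℂ}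
    (hy : ∀ j, MvPowerSeries.constantCoeff (y j) = 0)
    {g : MvPolynomial (Fin k) (MvPowerSeries (Fin n) ℂ)} (hg : g.IsHomogeneous (m + 1))
    (D : Derivation ℂ (MvPowerSeries (Fin n) ℂ) (MvPowerSeries (Fin n) ℂ)) :
    ∃ g' : MvPolynomial (Fin k) (MvPowerSeries (Fin n) ℂ), g'.IsHomogeneous m ∧
      eval y g' = D (eval y g) ∧
      cc g' = ∑ j, C (MvPowerSeries.constantCoeff (D (y j))) * pderiv j (cc g) := by
  classical
  refine ⟨C (MvPowerSeries.C ((m + 1 : ℂ)⁻¹)) * (∑ j, C (y j) * pderiv j (cd D g)) +
    ∑ j, C (D (y j)) * pderiv j g, ?_, ?_, ?_⟩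
  · refine IsHomogeneous.add ?_ ?_
    · refine IsHomogeneous.C_mul ?_ _
      exact IsHomogeneous.sum _ _ _ fun j _ => ((isHomogeneous_cd hg).pderiv).C_mul _
    · exact IsHomogeneous.sum _ _ _ fun j _ => (hg.pderiv).C_mul _
  · rw [deriv_eval, map_add, map_mul, eval_C, map_sum, map_sum]
    simp only [map_mul, eval_C]
    congr 1
    have h1 := congrArg (eval y) (isHomogeneous_cd (D := D) hg).sum_X_mul_pderiv
    rw [map_sum, map_nsmul] at h1
    simp only [map_mul, eval_X] at h1
    rw [h1, nsmul_eq_mul, ← mul_assoc]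
    have h2 : (MvPowerSeries.C ((m + 1 : ℂ)⁻¹) : MvPowerSeries (Fin n) ℂ) * ((m + 1 : ℕ) :
        MvPowerSeries (Fin n) ℂ) = 1 := by
      have h3 : ((m + 1 : ℕ) : MvPowerSeries (Fin n) ℂ) = MvPowerSeries.C ((m + 1 : ℂ)) := by
        rw [map_add, map_natCast, map_one]
        push_cast
        rfl
      rw [h3, ← map_mul, inv_mul_cancel₀ (by exact_mod_cast Nat.succ_ne_zero m), map_one]
    rw [h2, one_mul]
  · unfold cc
    simp only [map_add, map_mul, map_sum, map_C, hy, map_zero, zero_mul, Finset.sum_const_zero,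
      mul_zero, zero_add, pderiv_map]

end OR

end MPb07157
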