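import Pool.Agent.Lib.MP_b07157_agSC.OrdB
import Pool.Agent.Lib.MP_b07157_agSB.Coord
import Pool.Agent.Lib.MP_b07157_agYN.Krull
import Pool.Agent.Lib.MP_b07157_agW.WM

/-!
# Ordinary multiple points: the local statement
-/

noncomputable section

namespace MPb07157

open MvPolynomial

namespace OR

variable {n k m : ℕ}

theorem prod_X_pow {r : ℕ} (d : Fin k →₀ ℕ) :
    ∏ i, (MvPowerSeries.X (Fin.castAdd r i) : MvPowerSeries (Fin (k + r)) ℂ) ^ d i =
      MvPowerSeries.monomial (d.mapDomain (Fin.castAdd r)) 1 := by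
  classical
  have h1 : (∏ i, (X (Fin.castAdd r i) : MvPolynomial (Fin (k + r)) ℂ) ^ d i) =
      monomial (d.mapDomain (Fin.castAdd r)) 1 := by
    rw [← rename_monomial, monomial_eq, map_mul, rename_C, C_1, one_mul,
      Finsupp.prod_fintype _ _ (fun i => pow_zero _), map_prod]
    refine Finset.prod_congr rfl fun i _ => ?_
    rw [map_pow, rename_X]
  have h2 := congrArg (fun p : MvPolynomial (Fin (k + r)) ℂ => (p : MvPowerSeries (Fin (k + r)) ℂ))
    h1
  simp only [MvPolynomial.coe_monomial] at h2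
  rw [← h2, ← MvPolynomial.coeToMvPowerSeries.ringHom_apply, map_prod]
  refine Finset.prod_congr rfl fun i _ => ?_
  rw [map_pow, MvPolynomial.coeToMvPowerSeries.ringHom_apply, MvPolynomial.coe_X]

/-- **Uniqueness.** A form in a part of a coordinate system which vanishes has constant coefficients
zero. -/
theorem cc_eq_zero {u : Fin k → MvPowerSeries (Fin n) ℂ}
    (hu0 : ∀ j, MvPowerSeries.constantCoeff (u j) = 0) (hLI : LinearIndependent ℂ (lin u))
    {h : MvPolynomial (Fin k) (MvPowerSeries (Fin n) ℂ)} (hh : h.IsHomogeneous m)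
    (h0 : eval u h = 0) : cc h = 0 := by
  classical
  obtain ⟨r, rfl⟩ : ∃ r, n = k + r := by
    have h1 := hLI.fintype_card_le_finrank
    rw [Fintype.card_fin, Module.finrank_fin_fun] at h1
    exact ⟨n - k, by omega⟩
  obtain ⟨e, he⟩ := MPb07157SB.exists_coord hu0 (by
    have h1 : (fun (j : Fin k) (l : Fin (k + r)) =>
        MvPowerSeries.coeff (Finsupp.single l 1) (u j)) = lin u := by
      funext j l
      rw [coeff_single_ps]
    rw [h1]
    exact hLI)
  ext d₀
  rw [coeff_map, coeff_zero]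
  by_cases hd₀ : coeff d₀ h = 0
  · rw [hd₀, map_zero]
  have h1 := congrArg e h0
  rw [map_zero, eval_eq', map_sum] at h1
  simp only [map_mul, map_prod, map_pow, he, prod_X_pow] at h1
  have h2 := congrArg (MvPowerSeries.coeff (d₀.mapDomain (Fin.castAdd r))) h1
  rw [map_sum, map_zero, Finset.sum_eq_single d₀] at h2
  · rw [MvPowerSeries.coeff_mul_monomial, if_pos le_rfl, mul_one, tsub_self,
      MvPowerSeries.coeff_zero_eq_constantCoeff_apply, constantCoeff_equiv] at h2
    exact h2
  · intro d hd hne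
    rw [MvPowerSeries.coeff_mul_monomial, if_neg]
    intro hle
    apply hne
    have hinj : Function.Injective (Fin.castAdd r : Fin k → Fin (k + r)) :=
      Fin.castAdd_injective k r
    have h3 : ∀ i, d i ≤ d₀ i := by
      intro i
      have h4 := hle (Fin.castAdd r i)
      rwa [Finsupp.mapDomain_apply hinj, Finsupp.mapDomain_apply hinj] at h4
    have h4 : d.degree = d₀.degree := by
      have h5 : d.degree = m := by
        by_contra hne
        exact (mem_support_iff.1 hd) (hh.coeff_eq_zero hne)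
      have h6 : d₀.degree = m := by
        by_contra hne
        exact hd₀ (hh.coeff_eq_zero hne)
      rw [h5, h6]
    rw [Finsupp.degree_eq_sum, Finsupp.degree_eq_sum] at h4
    ext i
    exact (Finset.sum_eq_sum_iff_of_le fun i _ => h3 i).1 h4 i (Finset.mem_univ i)
  · intro h
    rw [notMem_support_iff.1 h] at hd₀
    exact absurd rfl hd₀

/-- A linear change of coordinates of a form without critical points outside the origin. -/
theorem nonsing_lin {γ : MvPolynomial (Fin k) ℂ}
    (hns : ∀ Y : Fin k → ℂ, Y ≠ 0 → ∃ j, eval Y (pderiv j γ) ≠ 0)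
    {N : Matrix (Fin k) (Fin k) ℂ} (hN : N.det ≠ 0) (Y : Fin k → ℂ) (hY : Y ≠ 0) :
    ∃ j, eval Y (pderiv j (aeval (fun b => ∑ i, C (N b i) * X i) γ)) ≠ 0 := by
  classical
  by_contra hcon
  push Not at hcon
  have hψ : ∀ b j, pderiv j (∑ i, C (N b i) * X i : MvPolynomial (Fin k) ℂ) = C (N b j) := by
    intro b j
    rw [map_sum, Finset.sum_eq_single j]
    · rw [pderiv_C_mul, pderiv_X_self, mul_one]
    · intro i _ hi
      rw [pderiv_C_mul, pderiv_X_of_ne hi, mul_zero]
    · intro h
      exact absurd (Finset.mem_univ _) h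
  have hev : ∀ G : MvPolynomial (Fin k) ℂ,
      eval Y (aeval (fun b => ∑ i, C (N b i) * X i) G) = eval (N.mulVec Y) G := by
    intro G
    have h1 : ((aeval Y : MvPolynomial (Fin k) ℂ →ₐ[ℂ] ℂ).comp
        (aeval (fun b => ∑ i, C (N b i) * X i))) G =
        aeval (fun b => aeval Y (∑ i, C (N b i) * X i : MvPolynomial (Fin k) ℂ)) G := by
      rw [comp_aeval]
    have h2 : (fun b => aeval Y (∑ i, C (N b i) * X i : MvPolynomial (Fin k) ℂ)) =
        N.mulVec Y := by
      funext b
      rw [map_sum]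
      refine Finset.sum_congr rfl fun i _ => ?_
      rw [map_mul, aeval_C, aeval_X]
      rfl
    rw [h2] at h1
    exact h1
  have h1 : Matrix.vecMul (fun b => eval (N.mulVec Y) (pderiv b γ)) N = 0 := by
    funext j
    rw [Pi.zero_apply, ← hcon j, W.pderiv_aeval, map_sum]
    show ∑ b, eval (N.mulVec Y) (pderiv b γ) * N b j = _
    refine Finset.sum_congr rfl fun b _ => ?_
    rw [map_mul, hev, hψ, eval_C]
  have h2 := Matrix.eq_zero_of_vecMul_eq_zero hN h1
  obtain ⟨j, hj⟩ := hns (N.mulVec Y) fun h => hY (Matrix.eq_zero_of_mulVec_eq_zero hN h)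
  exact hj (congrFun h2 j)

theorem map_aeval' {A B : Type} [CommRing A] [CommRing B] (f : A →+* B)
    (ψ : Fin k → MvPolynomial (Fin k) A) (g : MvPolynomial (Fin k) A) :
    map f (aeval ψ g) = aeval (fun b => map f (ψ b)) (map f g) := by
  induction g using MvPolynomial.induction_on with
  | C a => rw [aeval_C, algebraMap_eq, map_C, aeval_C, algebraMap_eq]
  | add p q hp hq => rw [map_add, map_add, hp, hq, map_add, map_add]
  | mul_X p i hp => rw [map_mul, map_mul, hp, aeval_X, map_mul, map_mul, map_X, aeval_X]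

/-- **The local statement.** Let a polynomial be a form of degree `m` in power series `y_j` with
independent linear parts, whose constant coefficients define a form without critical points outside
the origin. Then the same holds, after multiplication by a polynomial `a`, `a(0) ≠ 0`, for some
derivatives `u_j` of order `m - 1` instead of the `y_j` and polynomial coefficients. -/
theorem local_zero {F : MvPolynomial (Fin n) ℂ} {y : Fin k → MvPowerSeries (Fin n) ℂ}
    {g : MvPolynomial (Fin k) (MvPowerSeries (Fin n) ℂ)} (hm : 2 ≤ m) (hg : g.IsHomogeneous m)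
    (hF : (F : MvPowerSeries (Fin n) ℂ) = eval y g)
    (hy : ∀ j, MvPowerSeries.constantCoeff (y j) = 0) (hLI : LinearIndependent ℂ (lin y))
    (hns : ∀ Y : Fin k → ℂ, Y ≠ 0 → ∃ j, eval Y (pderiv j (cc g)) ≠ 0) :
    ∃ l : Fin k → List (Fin n), (∀ j, (l j).length = m - 1) ∧
      (∀ j, constantCoeff (dl (l j) F) = 0) ∧
      (LinearIndependent ℂ fun (j : Fin k) (i : Fin n) =>
        constantCoeff (pderiv i (dl (l j) F))) ∧
      (∃ (a : MvPolynomial (Fin n) ℂ) (g' : MvPolynomial (Fin k) (MvPolynomial (Fin n) ℂ)),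
        constantCoeff a ≠ 0 ∧ g'.IsHomogeneous m ∧ a * F = eval (fun j => dl (l j) F) g') ∧
      ∀ (a : MvPolynomial (Fin n) ℂ) (g' : MvPolynomial (Fin k) (MvPolynomial (Fin n) ℂ)),
        constantCoeff a ≠ 0 → g'.IsHomogeneous m → a * F = eval (fun j => dl (l j) F) g' →
        ∀ Y : Fin k → ℂ, Y ≠ 0 → ∃ j, eval Y (pderiv j (map constantCoeff g')) ≠ 0 := by
  classical
  have hγ : (cc g).IsHomogeneous (m - 1 + 1) := by
    rw [Nat.sub_add_cancel (by omega)]
    exact hg.map _
  obtain ⟨l, hl, hb⟩ := exists_lists hLI (by omega) hγ hns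
  have h1 : ∀ j, ∃ g' : MvPolynomial (Fin k) (MvPowerSeries (Fin n) ℂ), g'.IsHomogeneous 1 ∧
      ((dl (l j) F : MvPolynomial (Fin n) ℂ) : MvPowerSeries (Fin n) ℂ) = eval y g' ∧
        cc g' = DL (lin y) (l j) (cc g) := fun j => exists_dl hy hF (l j) 1 (by
    rw [hl j]
    have : 1 + (m - 1) = m := by omega
    rw [this]
    exact hg)
  choose g1 hg1 hu hcc using h1
  obtain ⟨M, hM⟩ : ∃ M : Matrix (Fin k) (Fin k) (MvPowerSeries (Fin n) ℂ),
      M = Matrix.of fun j i => coeff (Finsupp.single i 1) (g1 j) := ⟨_, rfl⟩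
  obtain ⟨u, hu'⟩ : ∃ u : Fin k → MvPowerSeries (Fin n) ℂ, u = fun j =>
      ((dl (l j) F : MvPolynomial (Fin n) ℂ) : MvPowerSeries (Fin n) ℂ) := ⟨_, rfl⟩
  have huM : ∀ j, u j = ∑ i, M j i * y i := by
    intro j
    rw [hu', hM]
    show ((dl (l j) F : MvPolynomial (Fin n) ℂ) : MvPowerSeries (Fin n) ℂ) = _
    rw [hu j, eval_of_isHomogeneous_one (hg1 j)]
    rfl
  have hM0 : ∀ j i, MvPowerSeries.constantCoeff (M j i) =
      coeff (Finsupp.single i 1) (DL (lin y) (l j) (cc g)) := by
    intro j i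
    rw [← hcc j, coeff_map, hM, Matrix.of_apply]
  have hMdet : (M.map MvPowerSeries.constantCoeff).det ≠ 0 := by
    rw [← isUnit_iff_ne_zero, ← Matrix.isUnit_iff_isUnit_det,
      ← Matrix.linearIndependent_rows_iff_isUnit]
    have : (M.map MvPowerSeries.constantCoeff).row =
        fun (j i : Fin k) => coeff (Finsupp.single i 1) (DL (lin y) (l j) (cc g)) := by
      funext j i
      exact hM0 j i
    rw [this]
    exact hb
  have hMu : IsUnit M.det := by
    rw [MvPowerSeries.isUnit_iff_constantCoeff, isUnit_iff_ne_zero, RingHom.map_det]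
    exact hMdet
  have hyM : ∀ b, y b = ∑ i, M⁻¹ b i * u i := by
    intro b
    have e1 : ∀ i, u i = M.mulVec y i := by
      intro i
      rw [huM]
      rfl
    have e2 : (M⁻¹).mulVec (M.mulVec y) = y := by
      rw [Matrix.mulVec_mulVec, Matrix.nonsing_inv_mul _ hMu, Matrix.one_mulVec]
    have e3 := congrFun e2 b
    rw [← e3]
    show ∑ i, M⁻¹ b i * M.mulVec y i = _
    exact Finset.sum_congr rfl fun i _ => by rw [e1]
  obtain ⟨N, hN⟩ : ∃ N : Matrix (Fin k) (Fin k) ℂ, N = (M⁻¹).map MvPowerSeries.constantCoeff :=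
    ⟨_, rfl⟩
  have hNdet : N.det ≠ 0 := by
    have e1 : N * M.map MvPowerSeries.constantCoeff = 1 := by
      rw [hN, ← Matrix.map_mul, Matrix.nonsing_inv_mul _ hMu]
      exact Matrix.map_one _ (map_zero _) (map_one _)
    intro h0
    have e2 := congrArg Matrix.det e1
    rw [Matrix.det_mul, h0, zero_mul, Matrix.det_one] at e2
    exact zero_ne_one e2
  -- the constant terms and the linear parts of `u`
  have hu0 : ∀ j, MvPowerSeries.constantCoeff (u j) = 0 := by
    intro j
    rw [huM, map_sum]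
    exact Finset.sum_eq_zero fun i _ => by rw [map_mul, hy, mul_zero]
  have hulin : ∀ j i, lin u j i = ∑ b, MvPowerSeries.constantCoeff (M j b) * lin y b i := by
    intro j i
    show MvPowerSeries.constantCoeff (MvPowerSeries.pderiv ℂ i (u j)) = _
    rw [huM, map_sum, map_sum]
    refine Finset.sum_congr rfl fun b _ => ?_
    rw [Derivation.leibniz, smul_eq_mul, smul_eq_mul, map_add, map_mul, map_mul, hy, zero_mul,
      add_zero]
  have huLI : LinearIndependent ℂ (lin u) := by
    rw [Fintype.linearIndependent_iff]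
    intro c hc
    have e1 : ∀ b, ∑ j, c j * MvPowerSeries.constantCoeff (M j b) = 0 := by
      refine Fintype.linearIndependent_iff.1 hLI _ ?_
      rw [← hc]
      funext i
      simp only [Finset.sum_apply, Pi.smul_apply, smul_eq_mul]
      simp only [hulin, Finset.mul_sum, Finset.sum_mul]
      rw [Finset.sum_comm]
      refine Finset.sum_congr rfl fun j _ => Finset.sum_congr rfl fun b _ => ?_
      ring
    have e2 : Matrix.vecMul c (M.map MvPowerSeries.constantCoeff) = 0 := funext e1
    exact congrFun (Matrix.eq_zero_of_vecMul_eq_zero hMdet e2)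
  -- `F` as a form in `u`
  obtain ⟨g2, hg2⟩ : ∃ g2 : MvPolynomial (Fin k) (MvPowerSeries (Fin n) ℂ),
      g2 = aeval (fun b => ∑ i, C (M⁻¹ b i) * X i) g := ⟨_, rfl⟩
  have hg2h : g2.IsHomogeneous m := by
    rw [hg2, ← one_mul m]
    exact hg.aeval _ fun b => IsHomogeneous.sum _ _ _ fun i _ => (isHomogeneous_X _ i).C_mul _
  have hFg2 : (F : MvPowerSeries (Fin n) ℂ) = eval u g2 := by
    rw [hF, hg2]
    have e1 : ((aeval u : MvPolynomial (Fin k) (MvPowerSeries (Fin n) ℂ) →ₐ[MvPowerSeries (Fin n) ℂ]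
        MvPowerSeries (Fin n) ℂ).comp (aeval (fun b => ∑ i, C (M⁻¹ b i) * X i))) g =
        aeval (fun b => aeval u (∑ i, C (M⁻¹ b i) * X i :
          MvPolynomial (Fin k) (MvPowerSeries (Fin n) ℂ))) g := by
      rw [comp_aeval]
    have e2 : (fun b => aeval u (∑ i, C (M⁻¹ b i) * X i :
        MvPolynomial (Fin k) (MvPowerSeries (Fin n) ℂ))) = y := by
      funext b
      rw [map_sum, hyM b]
      refine Finset.sum_congr rfl fun i _ => ?_
      rw [map_mul, aeval_C, aeval_X]
      rfl
    rw [e2] at e1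
    exact e1.symm
  have hccg2 : cc g2 = aeval (fun b => ∑ i, C (N b i) * X i) (cc g) := by
    rw [hg2]
    unfold cc
    rw [map_aeval']
    congr 1
    congr 1
    funext b
    rw [map_sum]
    refine Finset.sum_congr rfl fun i _ => ?_
    rw [map_mul, map_C, map_X, hN, Matrix.map_apply]
  have hns2 : ∀ Y : Fin k → ℂ, Y ≠ 0 → ∃ j, eval Y (pderiv j (cc g2)) ≠ 0 := by
    intro Y hY
    rw [hccg2]
    exact nonsing_lin hns hNdet Y hY
  refine ⟨l, hl, fun j => ?_, ?_, ?_, ?_⟩
  · have e1 := hu0 j
    rw [hu'] at e1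
    rw [← MvPowerSeries.coeff_zero_eq_constantCoeff_apply, MvPolynomial.coeff_coe] at e1
    rwa [constantCoeff_eq]
  · have e1 : (fun (j : Fin k) (i : Fin n) => constantCoeff (pderiv i (dl (l j) F))) = lin u := by
      funext j i
      show _ = MvPowerSeries.constantCoeff (MvPowerSeries.pderiv ℂ i (u j))
      rw [hu', MvPowerSeries.pderiv_coe, ← MvPowerSeries.coeff_zero_eq_constantCoeff_apply,
        MvPolynomial.coeff_coe, constantCoeff_eq]
    rw [e1]
    exact huLI
  · -- Krull
    obtain ⟨ε⟩ : Nonempty (Fin g2.support.card ≃ g2.support) := ⟨g2.support.equivFin.symm⟩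
    have e1 : (F : MvPowerSeries (Fin n) ℂ) = ∑ i, coeff (ε i).1 g2 *
        ((∏ j, (dl (l j) F) ^ (ε i).1 j : MvPolynomial (Fin n) ℂ) :
          MvPowerSeries (Fin n) ℂ) := by
      rw [hFg2, eval_eq', ← Finset.sum_coe_sort, ← Equiv.sum_comp ε]
      refine Finset.sum_congr rfl fun i _ => ?_
      congr 1
      rw [← MvPolynomial.coeToMvPowerSeries.ringHom_apply, map_prod]
      refine Finset.prod_congr rfl fun j _ => ?_
      rw [map_pow, MvPolynomial.coeToMvPowerSeries.ringHom_apply, hu']
    obtain ⟨a, b, ha, hab⟩ := YN.exists_local _ F _ e1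
    refine ⟨a, ∑ i, monomial (ε i).1 (b i), ha, ?_, ?_⟩
    · refine IsHomogeneous.sum _ _ _ fun i _ => isHomogeneous_monomial _ ?_
      by_contra hne
      exact (mem_support_iff.1 (ε i).2) (hg2h.coeff_eq_zero hne)
    · rw [hab, map_sum]
      refine Finset.sum_congr rfl fun i _ => ?_
      rw [eval_monomial, Finsupp.prod_fintype _ _ (fun i => pow_zero _)]
  · intro a g' ha hg' haF Y hY
    have e1 : cc (map (MvPolynomial.coeToMvPowerSeries.ringHom (R := ℂ) (σ := Fin n)) g' -
        C (a : MvPowerSeries (Fin n) ℂ) * g2) = 0 := by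
      refine cc_eq_zero hu0 huLI (m := m) ((hg'.map _).sub (hg2h.C_mul _)) ?_
      rw [map_sub, map_mul, eval_C, ← hFg2, sub_eq_zero]
      have e2 := congrArg (MvPolynomial.coeToMvPowerSeries.ringHom (R := ℂ) (σ := Fin n)) haF
      rw [map_mul, MvPolynomial.coeToMvPowerSeries.ringHom_apply,
        MvPolynomial.coeToMvPowerSeries.ringHom_apply] at e2
      rw [e2, eval_map, eval₂_eq', eval_eq', map_sum]
      refine Finset.sum_congr rfl fun d _ => ?_
      rw [map_mul, map_prod]
      congr 1
      refine Finset.prod_congr rfl fun j _ => ?_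
      rw [map_pow, hu', MvPolynomial.coeToMvPowerSeries.ringHom_apply]
    have e2 : map constantCoeff g' = C (constantCoeff a) * cc g2 := by
      unfold cc at e1
      rw [map_sub, sub_eq_zero, map_mul, map_C, map_map] at e1
      have e3 : (MvPowerSeries.constantCoeff (σ := Fin n) (R := ℂ)).comp
          (MvPolynomial.coeToMvPowerSeries.ringHom (R := ℂ) (σ := Fin n)) = constantCoeff := by
        refine RingHom.ext fun p => ?_
        rw [RingHom.comp_apply, MvPolynomial.coeToMvPowerSeries.ringHom_apply,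
          ← MvPowerSeries.coeff_zero_eq_constantCoeff_apply, MvPolynomial.coeff_coe,
          constantCoeff_eq]
      rw [e3] at e1
      rw [e1]
      congr 2
    obtain ⟨j, hj⟩ := hns2 Y hY
    refine ⟨j, ?_⟩
    rw [e2, pderiv_C_mul, map_mul, eval_C]
    exact mul_ne_zero ha hj

end OR

end MPb07157
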