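import Pool.Agent.Lib.MP_b07157_agSC.OrdDefs
import Pool.Agent.Lib.MP_b07157_agSC.OrdC
import Pool.Agent.Lib.MP_b07157_agO.Chev
import Pool.Agent.Lib.MP_b07157_agSA.Defs

/-!
# Ordinary multiple points: the covering
-/

noncomputable section

namespace MPb07157

open MvPolynomial

namespace OR

variable {n k m : ℕ}

/-! ### Constructible conditions -/

/-- The polynomial in both sets of variables. -/
def toSum (g : MvPolynomial (Fin k) (MvPolynomial (Fin n) ℂ)) : MvPolynomial (Fin n ⊕ Fin k) ℂ :=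
  eval₂ (rename (Sum.inl : Fin n → Fin n ⊕ Fin k) :
    MvPolynomial (Fin n) ℂ →ₐ[ℂ] MvPolynomial (Fin n ⊕ Fin k) ℂ).toRingHom
    (fun j => X (Sum.inr j)) g

theorem eval_toSum (p : Fin n → ℂ) (Y : Fin k → ℂ)
    (g : MvPolynomial (Fin k) (MvPolynomial (Fin n) ℂ)) :
    eval (Sum.elim p Y) (toSum g) = eval Y (map (eval p) g) := by
  unfold toSum
  induction g using MvPolynomial.induction_on with
  | C a =>
    rw [eval₂_C, map_C, eval_C]
    show eval (Sum.elim p Y) (rename Sum.inl a) = eval p a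
    rw [eval_rename]
    rfl
  | add a b ha hb => rw [eval₂_add, map_add, ha, hb, map_add, map_add]
  | mul_X a i ha => rw [eval₂_mul, map_mul, ha, eval₂_X, eval_X, map_mul, map_mul, map_X, eval_X,
      Sum.elim_inr]

theorem isConstr_nonsing {ι : Type} [Fintype ι] (G : ι → MvPolynomial (Fin n ⊕ Fin k) ℂ) :
    IsConstr {p : Fin n → ℂ | ∀ Y : Fin k → ℂ, Y ≠ 0 → ∃ i, eval (Sum.elim p Y) (G i) ≠ 0} := by
  have h1 : IsConstr {z : Fin n ⊕ Fin k → ℂ | (∃ j ∈ (Finset.univ : Finset (Fin k)),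
      eval z (X (Sum.inr j)) ≠ 0) ∧ ∀ i ∈ (Finset.univ : Finset ι), eval z (G i) = 0} :=
    isConstr_setOf_and (isConstr_exists_mem _ _ fun j _ => isConstr_ne_zero _)
      (isConstr_forall_mem _ _ fun i _ => isConstr_eq_zero _)
  have h2 := (h1.image fun i : Fin n => X (Sum.inl i)).compl
  have h3 : {p : Fin n → ℂ | ∀ Y : Fin k → ℂ, Y ≠ 0 → ∃ i, eval (Sum.elim p Y) (G i) ≠ 0} =
      (polyMap (fun i : Fin n => (X (Sum.inl i) : MvPolynomial (Fin n ⊕ Fin k) ℂ)) ''
      {z : Fin n ⊕ Fin k → ℂ | (∃ j ∈ (Finset.univ : Finset (Fin k)),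
      eval z (X (Sum.inr j)) ≠ 0) ∧ ∀ i ∈ (Finset.univ : Finset ι), eval z (G i) = 0})ᶜ := by
    ext p
    rw [Set.mem_compl_iff, Set.mem_ofPred_eq]
    constructor
    · rintro h ⟨z, ⟨⟨j, _, hj⟩, hz⟩, rfl⟩
      have hzz : z = Sum.elim (polyMap (fun i : Fin n =>
          (X (Sum.inl i) : MvPolynomial (Fin n ⊕ Fin k) ℂ)) z) (z ∘ Sum.inr) := by
        funext i
        rcases i with i | i
        · rw [Sum.elim_inl]
          unfold polyMap
          rw [eval_X]
        · rw [Sum.elim_inr]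
          rfl
      obtain ⟨i, hi⟩ := h (z ∘ Sum.inr) (fun h0 => hj (by rw [eval_X]; exact congrFun h0 j))
      rw [← hzz] at hi
      exact hi (hz i (Finset.mem_univ i))
    · intro h Y hY
      by_contra hcon
      push Not at hcon
      apply h
      refine ⟨Sum.elim p Y, ⟨?_, fun i _ => hcon i⟩, ?_⟩
      · obtain ⟨j, hj⟩ : ∃ j, Y j ≠ 0 := by
          by_contra hc
          push Not at hc
          exact hY (funext hc)
        exact ⟨j, Finset.mem_univ j, by rw [eval_X]; exact hj⟩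
      · funext i
        unfold polyMap
        rw [eval_X, Sum.elim_inl]
  rw [h3]
  exact h2

theorem isConstr_nonsing' {ι : Type} [Fintype ι]
    (G : ι → MvPolynomial (Fin k) (MvPolynomial (Fin n) ℂ)) :
    IsConstr {p : Fin n → ℂ | ∀ Y : Fin k → ℂ, Y ≠ 0 → ∃ i, eval Y (map (eval p) (G i)) ≠ 0} := by
  have h := isConstr_nonsing fun i => toSum (G i)
  simp only [eval_toSum] at h
  exact h

theorem isConstr_li (u : Fin k → MvPolynomial (Fin n) ℂ) :
    IsConstr {p : Fin n → ℂ | LinearIndependent ℂ fun (j : Fin k) (i : Fin n) =>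
      eval p (pderiv i (u j))} := by
  have h := isConstr_nonsing' fun i : Fin n =>
    (∑ j : Fin k, C (pderiv i (u j)) * X j : MvPolynomial (Fin k) (MvPolynomial (Fin n) ℂ))
  have h1 : {p : Fin n → ℂ | LinearIndependent ℂ fun (j : Fin k) (i : Fin n) =>
      eval p (pderiv i (u j))} = {p : Fin n → ℂ | ∀ Y : Fin k → ℂ, Y ≠ 0 →
        ∃ i : Fin n, eval Y (map (eval p) (∑ j : Fin k, C (pderiv i (u j)) * X j :
          MvPolynomial (Fin k) (MvPolynomial (Fin n) ℂ))) ≠ 0} := by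
    ext p
    rw [Set.mem_ofPred_eq, Set.mem_ofPred_eq, Fintype.linearIndependent_iff]
    simp only [map_sum, map_mul, map_C, map_X, eval_C, eval_X]
    constructor
    · intro h Y hY
      by_contra hcon
      push Not at hcon
      apply hY
      funext j
      refine h Y ?_ j
      funext i
      rw [Finset.sum_apply, Pi.zero_apply, ← hcon i]
      exact Finset.sum_congr rfl fun j _ => by rw [Pi.smul_apply, smul_eq_mul, mul_comm]
    · intro h Y hY j
      by_contra hj
      obtain ⟨i, hi⟩ := h Y fun h0 => hj (congrFun h0 j)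
      apply hi
      have h2 := congrFun hY i
      rw [Finset.sum_apply, Pi.zero_apply] at h2
      rw [← h2]
      exact Finset.sum_congr rfl fun j _ => by rw [Pi.smul_apply, smul_eq_mul, mul_comm]
  rw [h1]
  exact h

/-! ### The strata -/

/-- The polynomials `a` such that `a f` is a form of degree `m` in the `u_j`. -/
def mI (f : MvPolynomial (Fin n) ℂ) (u : Fin k → MvPolynomial (Fin n) ℂ) (m : ℕ) :
    Ideal (MvPolynomial (Fin n) ℂ) where
  carrier := {a | ∃ g : MvPolynomial (Fin k) (MvPolynomial (Fin n) ℂ), g.IsHomogeneous m ∧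
    a * f = eval u g}
  add_mem' := by
    rintro a b ⟨g, hg, h⟩ ⟨g', hg', h'⟩
    exact ⟨g + g', hg.add hg', by rw [add_mul, h, h', map_add]⟩
  zero_mem' := ⟨0, isHomogeneous_zero _ _ _, by rw [zero_mul, map_zero]⟩
  smul_mem' := by
    rintro c a ⟨g, hg, h⟩
    exact ⟨C c * g, hg.C_mul c, by rw [smul_eq_mul, mul_assoc, h, map_mul, eval_C]⟩

theorem mem_mI {f : MvPolynomial (Fin n) ℂ} {u : Fin k → MvPolynomial (Fin n) ℂ} {m : ℕ}
    {a : MvPolynomial (Fin n) ℂ} : a ∈ mI f u m ↔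
      ∃ g : MvPolynomial (Fin k) (MvPolynomial (Fin n) ℂ), g.IsHomogeneous m ∧
        a * f = eval u g := Iff.rfl

/-- The stratum. -/
def St (u : Fin k → MvPolynomial (Fin n) ℂ) (a : MvPolynomial (Fin n) ℂ)
    (g : MvPolynomial (Fin k) (MvPolynomial (Fin n) ℂ)) : Set (Fin n → ℂ) :=
  {p | eval p a ≠ 0 ∧ (∀ j ∈ (Finset.univ : Finset (Fin k)), eval p (u j) = 0) ∧
    (LinearIndependent ℂ fun (j : Fin k) (i : Fin n) => eval p (pderiv i (u j))) ∧
    ∀ Y : Fin k → ℂ, Y ≠ 0 → ∃ j, eval Y (map (eval p) (pderiv j g)) ≠ 0}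

theorem isConstr_St (u : Fin k → MvPolynomial (Fin n) ℂ) (a : MvPolynomial (Fin n) ℂ)
    (g : MvPolynomial (Fin k) (MvPolynomial (Fin n) ℂ)) : IsConstr (St u a g) :=
  isConstr_setOf_and (isConstr_ne_zero _) (isConstr_setOf_and
    (isConstr_forall_mem _ _ fun _ _ => isConstr_eq_zero _)
    (isConstr_setOf_and (isConstr_li u) (isConstr_nonsing' fun j => pderiv j g)))

theorem sqhAlong_St {f : MvPolynomial (Fin n) ℂ} {u : Fin k → MvPolynomial (Fin n) ℂ}
    {a : MvPolynomial (Fin n) ℂ} {g : MvPolynomial (Fin k) (MvPolynomial (Fin n) ℂ)} (hm : 2 ≤ m)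
    (hg : g.IsHomogeneous m) (h : a * f = eval u g) :
    SqhAlong f (St u a g) (fun _ : Fin k => 1) m := by
  classical
  refine ⟨by omega, fun _ => ⟨one_pos, hm⟩, a, u, g, h, ?_, ?_⟩
  · intro v hv
    have h1 : v.degree = m := by
      by_contra hne
      exact (mem_support_iff.1 hv) (hg.coeff_eq_zero hne)
    rw [Finsupp.degree_eq_sum] at h1
    simp only [one_mul]
    exact h1.ge
  · rintro p ⟨hpa, hpu, hpl, hpn⟩
    refine ⟨hpa, fun j => hpu j (Finset.mem_univ j), hpl, fun Y hY => ?_⟩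
    have h2 : (map (eval p) g).IsWeightedHomogeneous (fun _ : Fin k => 1) m := hg.map _
    rw [h2.weightedHomogeneousComponent_same]
    obtain ⟨j, hj⟩ := hpn Y hY
    exact ⟨j, by rw [pderiv_map]; exact hj⟩

end OR

end MPb07157
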