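import Pool.Agent.Lib.MP_b07157_agSC.Cover
import Pool.Agent.Lib.MP_b07157_agI.IsoC

/-!
# Smooth points and Morse–Bott points
-/

noncomputable section

namespace MPb07157

open MvPolynomial

variable {n : ℕ}

/-- The point `p` is not critical for `f`, or in suitable formal coordinates at `p` the polynomial
`f` is the sum of the squares of some of the coordinates (a Morse–Bott point). -/
def MBPt (f : MvPolynomial (Fin n) ℂ) (p : Fin n → ℂ) : Prop :=
  (∃ i, eval p (pderiv i f) ≠ 0) ∨
    ∃ A : Finset (Fin n), FormEquivPow (translate p f) (∑ i ∈ A, X i ^ 2) 1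

/-- The zeros of `f` which are smooth points or Morse–Bott points are covered by finitely many
constructible sets along which `f` is trivial with the germ `x`, or semi-quasi-homogeneous with all
weights one and `N = 2`. -/
theorem exists_cover_mbPt {f : MvPolynomial (Fin n) ℂ} (hf : f ≠ 0) :
    ∃ T : Set (Set (Fin n → ℂ)), T.Finite ∧
      (∀ p, eval p f = 0 → MBPt f p → ∃ W ∈ T, p ∈ W) ∧
      ∀ W ∈ T, IsConstr W ∧ (TrivAlong f W (X 0 : MvPolynomial (Fin 1) ℂ) ∨
        ∃ r, 0 < r ∧ SqhAlong f W (fun _ : Fin r => 1) 2) := by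
  obtain ⟨T, hT, hcov, h⟩ := MB.exists_cover hf {p | MBPt f p} (by
    intro p hp hcr
    rcases hp with ⟨i, hi⟩ | hA
    · exact absurd (hcr i) hi
    · exact hA)
  refine ⟨insert (smoothW f) T, hT.insert _, ?_, ?_⟩
  · intro p hp0 hp
    by_cases hcr : ∀ i, eval p (pderiv i f) = 0
    · obtain ⟨W, hW, hpW⟩ := hcov p hp hcr
      exact ⟨W, Set.mem_insert_of_mem _ hW, hpW⟩
    · push Not at hcr
      exact ⟨smoothW f, Set.mem_insert _ _, hp0, hcr⟩
  · rintro W (rfl | hW)
    · exact ⟨isConstr_smoothW f, Or.inl (trivAlong_smooth f)⟩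
    · exact ⟨(h W hW).1, Or.inr (h W hW).2⟩

end MPb07157
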